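import Pool.Agent.H89.UG.Gen
import Pool.Graph.R_pool_sql_team_seeded_3997aac3.Q146.TL.CstA

/-! Existence of constant extensions of prime degree; constants are norms. -/

set_option autoImplicit false
set_option linter.all false

open Module Polynomial

namespace Pool.Agent.H89.UG

open Pool.Agent.Q146.TL.Cst

section

variable {k : Type} [Field k] {g₀ : k[X]} {ℓ : ℕ} {K₀ Ω : Type} [Field K₀] [Field Ω]
  [Algebra k K₀] [Algebra K₀ Ω] [Algebra k Ω] [IsScalarTower k K₀ Ω]

theorem exists_stp [Finite k] [IsAlgClosed Ω] (hm : g₀.Monic) (hd : g₀.natDegree = ℓ)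
    (hirr : Irreducible (g₀.map (algebraMap k K₀))) :
    ∃ (K₁ : Type) (_ : Field K₁) (_ : Algebra K₀ K₁), Nonempty (Stp g₀ ℓ K₀ K₁ Ω) := by
  classical
  set g : K₀[X] := g₀.map (algebraMap k K₀) with hg
  haveI : Fact (Irreducible g) := ⟨hirr⟩
  have hirr0 : Irreducible g₀ := irr_of_map _ _ hirr
  haveI : Fact (Irreducible g₀) := ⟨hirr0⟩
  have hg0 : g ≠ 0 := hirr.ne_zero
  let pb := AdjoinRoot.powerBasis hg0
  haveI : FiniteDimensional K₀ (AdjoinRoot g) := pb.finite
  have hgen : pb.gen = AdjoinRoot.root g := rfl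
  have hroot : aeval (AdjoinRoot.root g) g = 0 := by
    rw [AdjoinRoot.aeval_eq, AdjoinRoot.mk_self]
  have hsep : g.Separable := (PerfectField.separable_of_irreducible hirr0).map
  -- the finite field
  haveI : FiniteDimensional k (AdjoinRoot g₀) := (AdjoinRoot.powerBasis hirr0.ne_zero).finite
  haveI : Finite (AdjoinRoot g₀) := Module.finite_of_finite k
  haveI : IsGalois k (AdjoinRoot g₀) := inferInstance
  have hmin : minpoly k (AdjoinRoot.root g₀) = g₀ := by
    rw [AdjoinRoot.minpoly_root hirr0.ne_zero, hm.leadingCoeff, inv_one, C_1, mul_one]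
  have hspl : (g₀.map (algebraMap k (AdjoinRoot g₀))).Splits := by
    have := Normal.splits (F := k) (K := AdjoinRoot g₀) inferInstance (AdjoinRoot.root g₀)
    rwa [hmin] at this
  have hr0 : aeval (AdjoinRoot.root g) g₀ = 0 := by
    rw [← aeval_map_algebraMap K₀]
    exact hroot
  let ψ : AdjoinRoot g₀ →+* AdjoinRoot g := AdjoinRoot.lift (algebraMap k (AdjoinRoot g))
    (AdjoinRoot.root g) hr0
  have hψ : ψ.comp (algebraMap k (AdjoinRoot g₀)) = algebraMap k (AdjoinRoot g) :=
    AdjoinRoot.lift_comp_of hr0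
  have hspl2 : (g.map (algebraMap K₀ (AdjoinRoot g))).Splits := by
    have h1 := hspl.map ψ
    rw [Polynomial.map_map, hψ] at h1
    have h2 : (g₀.map (algebraMap k K₀)).map (algebraMap K₀ (AdjoinRoot g)) =
        g₀.map (algebraMap k (AdjoinRoot g)) := by
      rw [Polynomial.map_map, ← IsScalarTower.algebraMap_eq]
    have h3 : g.map (algebraMap K₀ (AdjoinRoot g)) = g₀.map (algebraMap k (AdjoinRoot g)) := h2
    rw [h3]
    exact h1
  haveI hsf : g.IsSplittingField K₀ (AdjoinRoot g) := by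
    refine ⟨hspl2, ?_⟩
    rw [eq_top_iff, ← AdjoinRoot.adjoinRoot_eq_top (f := g)]
    refine Algebra.adjoin_mono ?_
    rintro _ rfl
    rw [mem_rootSet]
    exact ⟨hg0, hroot⟩
  refine ⟨AdjoinRoot g, inferInstance, inferInstance, ⟨⟨pb, ?_, ?_, ?_, ?_⟩⟩⟩
  · change g.natDegree = ℓ
    rw [hg, natDegree_map, hd]
  · exact hroot
  · exact IsGalois.of_separable_splitting_field hsep
  · exact IsAlgClosed.lift

theorem cn_finite [Finite k] [Finite K₀] [IsAlgClosed Ω] (hm : g₀.Monic) (hd : g₀.natDegree = ℓ)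
    (hirr : Irreducible (g₀.map (algebraMap k K₀))) : CN g₀ ℓ K₀ Ω := by
  intro c
  obtain ⟨K₁, iF, iA, ⟨T⟩⟩ := exists_stp (Ω := Ω) hm hd hirr
  haveI := T.fd
  haveI := T.gal
  haveI : Finite K₁ := Module.finite_of_finite K₀
  haveI : Fintype (K₁ ≃ₐ[K₀] K₁) := Fintype.ofFinite _
  obtain ⟨y, hy⟩ := FiniteField.norm_surjective K₀ K₁ c
  have h1 : algebraMap K₀ K₁ c = ∏ τ : K₁ ≃ₐ[K₀] K₁, τ y := by
    have h2 := Algebra.norm_eq_prod_automorphisms K₀ y
    rw [hy] at h2
    rw [h2]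
    refine Finset.prod_congr ?_ fun _ _ => rfl
    ext σ
    exact ⟨fun _ => @Finset.mem_univ _ (_) σ, fun _ => @Finset.mem_univ _ (_) σ⟩
  refine ⟨fun i => T.crd i y, ?_⟩
  rw [← T.j.commutes, h1, map_prod]
  unfold nrm
  rw [← T.prod hd (Monic.ne_zero hm) fun ϑ => ∑ i ∈ Finset.range ℓ, ϑ ^ i * algebraMap K₀ Ω (T.crd i y)]
  refine Finset.prod_congr rfl fun τ _ => ?_
  conv_lhs => rw [T.sum_crd y]
  rw [map_sum, map_sum]
  refine Finset.sum_congr rfl fun i _ => ?_
  rw [map_mul, map_mul, map_pow, map_pow, τ.commutes, T.j.commutes]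

end

section kap

variable {k : Type} [Field k] [Fintype k] {Ω : Type} [Field Ω] [Algebra k Ω] [IsAlgClosed Ω]
  {g₀ : k[X]} {ℓ : ℕ} [Fact ℓ.Prime]

/-- `g₀` remains irreducible -/
theorem irr_kap (hirr : Irreducible g₀) (hd : g₀.natDegree = ℓ) :
    Irreducible (g₀.map (algebraMap k (kap k Ω ℓ))) := by
  have hℓ : ℓ.Prime := Fact.out
  have h0 : g₀.map (algebraMap k (kap k Ω ℓ)) ≠ 0 := Polynomial.map_ne_zero hirr.ne_zero
  have hnu : ¬ IsUnit (g₀.map (algebraMap k (kap k Ω ℓ))) := by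
    intro h
    have := natDegree_eq_zero_of_isUnit h
    rw [natDegree_map, hd] at this
    exact hℓ.ne_zero this
  obtain ⟨r, hr, hrd⟩ := WfDvdMonoid.exists_irreducible_factor hnu h0
  have hle : r.natDegree ≤ ℓ := by
    have := natDegree_le_of_dvd hrd h0
    rwa [natDegree_map, hd] at this
  by_cases h1 : r.natDegree = 1
  · -- a root in `kap`
    exfalso
    obtain ⟨x, hx⟩ := exists_root_of_degree_eq_one (by
      rw [degree_eq_natDegree hr.ne_zero, h1]; rfl)
    have hx2 : aeval x g₀ = 0 := by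
      rw [← aeval_map_algebraMap (kap k Ω ℓ)]
      obtain ⟨s, hs⟩ := hrd
      rw [hs, map_mul]
      have : aeval x r = 0 := hx
      rw [this, zero_mul]
    obtain ⟨m, hm, hxm⟩ := (mem_kap k Ω ℓ x.1).1 x.2
    haveI := fx_finite k Ω (ne_zero_of hm)
    have h2 : aeval (⟨x.1, hxm⟩ : fx k Ω m) g₀ = 0 := by
      apply (algebraMap (fx k Ω m) Ω).injective
      rw [map_zero, ← aeval_algebraMap_apply]
      have h3 := congrArg (algebraMap (kap k Ω ℓ) Ω) hx2
      rw [map_zero, ← aeval_algebraMap_apply] at h3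
      exact h3
    have h3 : minpoly k (⟨x.1, hxm⟩ : fx k Ω m) = g₀ * C g₀.leadingCoeff⁻¹ :=
      (minpoly.eq_of_irreducible hirr h2).symm
    haveI : FiniteDimensional k (fx k Ω m) := inferInstance
    have h4 := minpoly.degree_dvd (K := k) (L := fx k Ω m) (x := ⟨x.1, hxm⟩)
      (Algebra.IsIntegral.isIntegral _)
    rw [h3, natDegree_mul_C (inv_ne_zero (leadingCoeff_ne_zero.2 hirr.ne_zero)), hd] at h4
    exact hm (h4.trans (finrank_fx k Ω (ne_zero_of hm)))
  · have h2 := kap_irr k Ω ℓ r hr h1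
    have h3 : r.natDegree = ℓ := by
      have h4 := hr.natDegree_pos
      exact le_antisymm hle (Nat.le_of_dvd h4 h2)
    have h5 : Associated r (g₀.map (algebraMap k (kap k Ω ℓ))) := by
      obtain ⟨s, hs⟩ := hrd
      have hs0 : s ≠ 0 := by
        rintro rfl
        rw [mul_zero] at hs
        exact h0 hs
      have h6 : (g₀.map (algebraMap k (kap k Ω ℓ))).natDegree = r.natDegree + s.natDegree := by
        rw [hs, natDegree_mul hr.ne_zero hs0]
      rw [natDegree_map, hd, h3] at h6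
      have h7 : s.natDegree = 0 := by omega
      have h8 : IsUnit s := by
        rw [isUnit_iff_degree_eq_zero, degree_eq_natDegree hs0, h7]; rfl
      rw [hs]
      exact associated_mul_unit_right _ _ h8
    exact h5.irreducible hr

end kap

end Pool.Agent.H89.UG
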