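import Pool.Agent.H89.UG.Mv

/-! Forms which are norms from a constant extension of prime degree. -/

set_option autoImplicit false
set_option linter.all false

open Module Polynomial

namespace Pool.Agent.H89.UG

/-- the norm form -/
noncomputable def nrm {Ω : Type} [Field Ω] (S : Finset Ω) (ℓ : ℕ) (y : ℕ → Ω) : Ω :=
  ∏ ϑ ∈ S, ∑ i ∈ Finset.range ℓ, ϑ ^ i * y i

/-- the roots of `g₀` in `Ω` -/
noncomputable def rts {k : Type} [Field k] (g₀ : k[X]) (Ω : Type) [Field Ω] [Algebra k Ω] :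
    Finset Ω := by
  classical
  exact (g₀.aroots Ω).toFinset

theorem mem_rts {k : Type} [Field k] {g₀ : k[X]} (h0 : g₀ ≠ 0) {Ω : Type} [Field Ω] [Algebra k Ω]
    {x : Ω} : x ∈ rts g₀ Ω ↔ aeval x g₀ = 0 := by
  classical
  unfold rts
  rw [Multiset.mem_toFinset, mem_aroots]
  exact ⟨fun h => h.2, fun h => ⟨h0, h⟩⟩

theorem card_rts {k : Type} [Field k] {g₀ : k[X]} {Ω : Type} [Field Ω] [Algebra k Ω] :
    (rts g₀ Ω).card ≤ g₀.natDegree := by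
  classical
  unfold rts
  refine (Multiset.toFinset_card_le _).trans ?_
  refine (card_roots' _).trans ?_
  exact natDegree_map_le

/-- the constant extension generated by a root of `g₀` -/
structure Stp {k : Type} [Field k] (g₀ : k[X]) (ℓ : ℕ) (K₀ K₁ Ω : Type) [Field K₀] [Field K₁]
    [Field Ω] [Algebra k K₀] [Algebra K₀ K₁] [Algebra K₀ Ω] where
  pb : PowerBasis K₀ K₁
  dim : pb.dim = ℓ
  root : aeval pb.gen (g₀.map (algebraMap k K₀)) = 0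
  gal : IsGalois K₀ K₁
  j : K₁ →ₐ[K₀] Ω

section

variable {k : Type} [Field k] {g₀ : k[X]} {ℓ : ℕ} {K₀ K₁ Ω : Type} [Field K₀] [Field K₁] [Field Ω]
  [Algebra k K₀] [Algebra K₀ K₁] [Algebra K₀ Ω] [Algebra k Ω] [IsScalarTower k K₀ Ω]

theorem Stp.fd (T : Stp g₀ ℓ K₀ K₁ Ω) : FiniteDimensional K₀ K₁ := T.pb.finite

theorem Stp.finrank (T : Stp g₀ ℓ K₀ K₁ Ω) : finrank K₀ K₁ = ℓ := by
  rw [T.pb.finrank, T.dim]

theorem Stp.card (T : Stp g₀ ℓ K₀ K₁ Ω) : Nat.card (K₁ ≃ₐ[K₀] K₁) = ℓ := by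
  haveI := T.fd
  haveI := T.gal
  rw [IsGalois.card_aut_eq_finrank, T.finrank]

/-- the coordinates -/
noncomputable def Stp.crd (T : Stp g₀ ℓ K₀ K₁ Ω) (i : ℕ) (y : K₁) : K₀ :=
  if h : i < T.pb.dim then T.pb.basis.repr y ⟨i, h⟩ else 0

theorem Stp.sum_crd (T : Stp g₀ ℓ K₀ K₁ Ω) (y : K₁) :
    y = ∑ i ∈ Finset.range ℓ, T.pb.gen ^ i * algebraMap K₀ K₁ (T.crd i y) := by
  have h1 := T.pb.basis.sum_repr y
  have h2 : Finset.range ℓ = Finset.range T.pb.dim := by rw [T.dim]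
  rw [h2, ← Fin.sum_univ_eq_sum_range
    (fun i => T.pb.gen ^ i * algebraMap K₀ K₁ (T.crd i y)) T.pb.dim]
  conv_lhs => rw [← h1]
  refine Finset.sum_congr rfl fun i _ => ?_
  rw [T.pb.basis_eq_pow, Algebra.smul_def, mul_comm]
  unfold Stp.crd
  rw [dif_pos i.2]

/-- the components of a polynomial -/
noncomputable def Stp.cmp (T : Stp g₀ ℓ K₀ K₁ Ω) {ι : Type} (i : ℕ) (Φ : MvPolynomial ι K₁) :
    MvPolynomial ι K₀ :=
  ∑ m ∈ Φ.support, MvPolynomial.monomial m (T.crd i (Φ.coeff m))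

theorem Stp.cmp_hom (T : Stp g₀ ℓ K₀ K₁ Ω) {ι : Type} (i : ℕ) {Φ : MvPolynomial ι K₁} {n : ℕ}
    (h : Φ.IsHomogeneous n) : (T.cmp i Φ).IsHomogeneous n := by
  unfold Stp.cmp
  refine MvPolynomial.IsHomogeneous.sum _ _ _ fun m hm => ?_
  refine MvPolynomial.isHomogeneous_monomial _ ?_
  exact (h.degree_eq_sum_deg_support hm).symm

theorem Stp.eval (T : Stp g₀ ℓ K₀ K₁ Ω) {ι : Type} (Φ : MvPolynomial ι K₁) (τ : K₁ ≃ₐ[K₀] K₁)
    (x : ι → Ω) : MvPolynomial.eval₂ (T.j : K₁ →+* Ω) x (actM ι τ Φ) =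
      ∑ i ∈ Finset.range ℓ, (T.j (τ T.pb.gen)) ^ i * MvPolynomial.aeval x (T.cmp i Φ) := by
  unfold actM
  rw [MvPolynomial.eval₂_map, MvPolynomial.eval₂_eq]
  have h1 : ∀ m, ((T.j : K₁ →+* Ω).comp (τ : K₁ →+* K₁)) (MvPolynomial.coeff m Φ) =
      ∑ i ∈ Finset.range ℓ, (T.j (τ T.pb.gen)) ^ i *
        algebraMap K₀ Ω (T.crd i (MvPolynomial.coeff m Φ)) := by
    intro m
    conv_lhs => rw [T.sum_crd (MvPolynomial.coeff m Φ)]
    rw [map_sum]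
    refine Finset.sum_congr rfl fun i _ => ?_
    change T.j (τ _) = _
    rw [map_mul, map_pow, τ.commutes, map_mul, map_pow, T.j.commutes]
  simp only [h1, Finset.sum_mul]
  rw [Finset.sum_comm]
  refine Finset.sum_congr rfl fun i _ => ?_
  unfold Stp.cmp
  rw [map_sum, Finset.mul_sum]
  refine Finset.sum_congr rfl fun m _ => ?_
  rw [MvPolynomial.aeval_monomial, mul_assoc]
  rfl

theorem Stp.gen_inj (T : Stp g₀ ℓ K₀ K₁ Ω) {σ τ : K₁ ≃ₐ[K₀] K₁}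
    (h : σ T.pb.gen = τ T.pb.gen) : σ = τ := by
  have h1 : (σ : K₁ →ₐ[K₀] K₁) = (τ : K₁ →ₐ[K₀] K₁) := T.pb.algHom_ext h
  ext y
  exact DFunLike.congr_fun h1 y

theorem Stp.prod (T : Stp g₀ ℓ K₀ K₁ Ω) [Fintype (K₁ ≃ₐ[K₀] K₁)] (hd : g₀.natDegree = ℓ)
    (h0 : g₀ ≠ 0) (f : Ω → Ω) :
    ∏ τ : K₁ ≃ₐ[K₀] K₁, f (T.j (τ T.pb.gen)) = ∏ ϑ ∈ rts g₀ Ω, f ϑ := by
  classical
  have hinj : Function.Injective fun τ : K₁ ≃ₐ[K₀] K₁ => T.j (τ T.pb.gen) := fun σ τ h =>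
    T.gen_inj (T.j.toRingHom.injective h)
  have himg : Finset.univ.image (fun τ : K₁ ≃ₐ[K₀] K₁ => T.j (τ T.pb.gen)) = rts g₀ Ω := by
    refine Finset.eq_of_subset_of_card_le ?_ ?_
    · intro x hx
      obtain ⟨τ, -, rfl⟩ := Finset.mem_image.1 hx
      rw [mem_rts h0]
      have h1 : aeval (T.j (τ T.pb.gen)) (g₀.map (algebraMap k K₀)) = 0 := by
        have h2 := congrArg (fun z => T.j (τ z)) T.root
        simp only [map_zero] at h2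
        rw [← h2, Polynomial.aeval_algHom_apply]
        congr 1
        exact Polynomial.aeval_algHom_apply (τ : K₁ →ₐ[K₀] K₁) T.pb.gen _
      rwa [aeval_map_algebraMap] at h1
    · refine card_rts.trans ?_
      rw [Finset.card_image_of_injective _ hinj, Finset.card_univ, ← Nat.card_eq_fintype_card,
        T.card, hd]
  rw [← himg, Finset.prod_image fun a _ b _ h => hinj h]

/-- constants which are norms -/
def CN (g₀ : k[X]) (ℓ : ℕ) (K₀ Ω : Type) [Field K₀] [Field Ω] [Algebra K₀ Ω] [Algebra k Ω] : Prop :=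
  ∀ c : K₀, ∃ y : ℕ → K₀, algebraMap K₀ Ω c = nrm (rts g₀ Ω) ℓ fun i => algebraMap K₀ Ω (y i)

theorem Stp.norm (T : Stp g₀ ℓ K₀ K₁ Ω) [Fintype (K₁ ≃ₐ[K₀] K₁)] (hd : g₀.natDegree = ℓ)
    (h0 : g₀ ≠ 0) {ι : Type} (Φ : MvPolynomial ι K₁) (x : ι → Ω) :
    MvPolynomial.eval₂ (T.j : K₁ →+* Ω) x (∏ τ : K₁ ≃ₐ[K₀] K₁, actM ι τ Φ) =
      nrm (rts g₀ Ω) ℓ fun i => MvPolynomial.aeval x (T.cmp i Φ) := by
  have h1 : MvPolynomial.eval₂ (T.j : K₁ →+* Ω) x (∏ τ : K₁ ≃ₐ[K₀] K₁, actM ι τ Φ) =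
      ∏ τ : K₁ ≃ₐ[K₀] K₁, MvPolynomial.eval₂ (T.j : K₁ →+* Ω) x (actM ι τ Φ) :=
    map_prod (MvPolynomial.eval₂Hom (T.j : K₁ →+* Ω) x) _ _
  rw [h1]
  simp only [T.eval]
  unfold nrm
  exact T.prod hd h0 fun ϑ => ∑ i ∈ Finset.range ℓ, ϑ ^ i * MvPolynomial.aeval x (T.cmp i Φ)

/-- **Forms which are norms.** -/
theorem Stp.main (T : Stp g₀ ℓ K₀ K₁ Ω) (hℓ : ℓ.Prime) (hd : g₀.natDegree = ℓ) (h0 : g₀ ≠ 0)
    (hcn : CN g₀ ℓ K₀ Ω) {ι : Type} (F : MvPolynomial ι K₀) (hF : F ≠ 0)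
    (h : ∀ p, Irreducible p → p ∣ F →
      (∃ u v : MvPolynomial ι K₀, ¬ p ∣ v ∧ MvPolynomial.map (algebraMap K₀ K₁) p ∣
        ∏ᶠ τ : K₁ ≃ₐ[K₀] K₁, (MvPolynomial.map (algebraMap K₀ K₁) u -
          MvPolynomial.C (τ T.pb.gen) * MvPolynomial.map (algebraMap K₀ K₁) v)) ∨
      ∀ n, p ^ n ∣ F → ¬ p ^ (n + 1) ∣ F → ℓ ∣ n) :
    ∃ Φ : ℕ → MvPolynomial ι K₀,
      (∀ x : ι → Ω, MvPolynomial.aeval x F =
        nrm (rts g₀ Ω) ℓ fun i => MvPolynomial.aeval x (Φ i)) ∧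
      ∀ n, F.IsHomogeneous (ℓ * n) → ∀ i, (Φ i).IsHomogeneous n := by
  classical
  haveI := T.fd
  haveI := T.gal
  haveI : Fintype (K₁ ≃ₐ[K₀] K₁) := Fintype.ofFinite _
  have hcard : Fintype.card (K₁ ≃ₐ[K₀] K₁) = ℓ := by rw [← Nat.card_eq_fintype_card, T.card]
  have D := dscM (K₀ := K₀) (K₁ := K₁) (ι := ι)
  obtain ⟨c, b, hc, hcb⟩ := D.nl (by rw [T.card]; exact hℓ) F hF fun p hp hpF => by
    rcases h p hp hpF with ⟨u, v, hv, huv⟩ | h1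
    · left
      refine ⟨fun τ => MvPolynomial.C (τ T.pb.gen), u, v, ?_, ?_, ?_, hv⟩
      · intro σ τ hne
        rw [← map_sub]
        refine IsUnit.map _ (isUnit_iff_ne_zero.2 fun h2 => hne (T.gen_inj (sub_eq_zero.1 h2)))
      · intro σ τ
        unfold actM
        rw [MvPolynomial.map_C]
        rfl
      · rwa [finprod_eq_prod_of_fintype] at huv
    · right
      rwa [hcard]
  obtain ⟨r, hr, rfl⟩ := MvPolynomial.isUnit_iff_eq_C_of_isReduced.1 hc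
  obtain ⟨y, hy⟩ := hcn r
  set y' : K₁ := ∑ i ∈ Finset.range ℓ, T.pb.gen ^ i * algebraMap K₀ K₁ (y i) with hy'
  have hy1 : algebraMap K₀ K₁ r = ∏ τ : K₁ ≃ₐ[K₀] K₁, τ y' := by
    apply (T.j : K₁ →+* Ω).injective
    change T.j _ = T.j _
    rw [T.j.commutes, hy, map_prod]
    unfold nrm
    rw [← T.prod hd h0 fun ϑ => ∑ i ∈ Finset.range ℓ, ϑ ^ i * algebraMap K₀ Ω (y i)]
    refine Finset.prod_congr rfl fun τ _ => ?_
    rw [hy', map_sum, map_sum]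
    refine Finset.sum_congr rfl fun i _ => ?_
    rw [map_mul, map_mul, map_pow, map_pow, τ.commutes, T.j.commutes]
  set Φ : MvPolynomial ι K₁ := MvPolynomial.C y' * b with hΦ
  have hFΦ : MvPolynomial.map (algebraMap K₀ K₁) F = ∏ τ : K₁ ≃ₐ[K₀] K₁, actM ι τ Φ := by
    rw [hcb, MvPolynomial.map_C, hy1, hΦ]
    simp only [map_mul, Finset.prod_mul_distrib]
    rw [map_prod]
    congr 1
    refine Finset.prod_congr rfl fun τ _ => ?_
    unfold actM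
    rw [MvPolynomial.map_C]
    rfl
  refine ⟨fun i => T.cmp i Φ, fun x => ?_, fun n hn i => ?_⟩
  · rw [← T.norm hd h0, ← hFΦ, MvPolynomial.eval₂_map, MvPolynomial.aeval_def]
    congr 1
    ext z
    exact (T.j.commutes z).symm
  · apply T.cmp_hom
    have hne : MvPolynomial.map (algebraMap K₀ K₁) F ≠ 0 := by
      rw [Ne, map_eq_zero_iff _ (MvPolynomial.map_injective _ (algebraMap K₀ K₁).injective)]
      exact hF
    have h1 : (actM ι (1 : K₁ ≃ₐ[K₀] K₁) Φ) * ∏ τ ∈ Finset.univ.erase (1 : K₁ ≃ₐ[K₀] K₁), actM ι τ Φ =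
        MvPolynomial.map (algebraMap K₀ K₁) F := by
      rw [hFΦ]
      exact Finset.mul_prod_erase Finset.univ (fun τ : K₁ ≃ₐ[K₀] K₁ => actM ι τ Φ) (Finset.mem_univ _)
    rw [D.one] at h1
    obtain ⟨m, hm⟩ := hom_of_mul (n := ℓ * n) (by rw [h1]; exact hn.map _) (by rw [h1]; exact hne)
    have h2 : (∏ τ : K₁ ≃ₐ[K₀] K₁, actM ι τ Φ).IsHomogeneous (∑ τ : K₁ ≃ₐ[K₀] K₁, m) :=
      MvPolynomial.IsHomogeneous.prod _ _ _ fun τ _ => hm.map _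
    rw [Finset.sum_const, Finset.card_univ, hcard, smul_eq_mul, ← hFΦ] at h2
    have h3 := h2.inj_right (hn.map _) hne
    rw [← Nat.eq_of_mul_eq_mul_left hℓ.pos h3]
    exact hm

end

end Pool.Agent.H89.UG
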