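import Pool.Agent.H89.UG.Up
import Pool.Agent.H89.PF.Point

/-! Global points of `F(x) = u G(z)` for norm forms `F, G` and a norm `u`. -/

set_option autoImplicit false
set_option linter.all false

open Module Polynomial

namespace Pool.Agent.H89.UG

open Pool.Agent.Q146.TL.Cst

theorem lift_poly {A B Ω : Type} [Field A] [Field B] [Field Ω] [Algebra A Ω] [Algebra B Ω] {ι : Type}
    (Φ : MvPolynomial ι A) (h : ∀ m ∈ Φ.support, ∃ y : B, algebraMap B Ω y = algebraMap A Ω (Φ.coeff m)) :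
    ∃ Φ' : MvPolynomial ι B, MvPolynomial.map (algebraMap B Ω) Φ' =
      MvPolynomial.map (algebraMap A Ω) Φ := by
  classical
  choose! y hy using h
  refine ⟨∑ m ∈ Φ.support, MvPolynomial.monomial m (y m), ?_⟩
  rw [map_sum]
  conv_rhs => rw [Φ.as_sum, map_sum]
  refine Finset.sum_congr rfl fun m hm => ?_
  rw [MvPolynomial.map_monomial, MvPolynomial.map_monomial, hy m hm]

theorem nrm_mul {Ω : Type} [Field Ω] (S : Finset Ω) (ℓ : ℕ) (y z w : ℕ → Ω)
    (h : ∀ ϑ ∈ S, ∑ i ∈ Finset.range ℓ, ϑ ^ i * y i =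
      (∑ i ∈ Finset.range ℓ, ϑ ^ i * z i) * ∑ i ∈ Finset.range ℓ, ϑ ^ i * w i) :
    nrm S ℓ y = nrm S ℓ z * nrm S ℓ w := by
  unfold nrm
  rw [← Finset.prod_mul_distrib]
  exact Finset.prod_congr rfl h

/-- the structure constants -/
noncomputable def sc {k : Type} [Field k] (g₀ : k[X]) (p q i : ℕ) : k := (X ^ (p + q) %ₘ g₀).coeff i

theorem sum_sc {k : Type} [Field k] {g₀ : k[X]} (hm : g₀.Monic) {ℓ : ℕ} (hd : g₀.natDegree = ℓ)
    (hℓ : 0 < ℓ) {Ω : Type} [Field Ω] [Algebra k Ω] {ϑ : Ω} (h : aeval ϑ g₀ = 0) (p q : ℕ) :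
    ∑ i ∈ Finset.range ℓ, ϑ ^ i * algebraMap k Ω (sc g₀ p q i) = ϑ ^ p * ϑ ^ q := by
  have h1 : aeval ϑ (X ^ (p + q) %ₘ g₀) = ϑ ^ p * ϑ ^ q := by
    rw [modByMonic_eq_sub_mul_div _ g₀, map_sub, map_mul, h, zero_mul, sub_zero, map_pow,
      aeval_X, pow_add]
  have h2 : (X ^ (p + q) %ₘ g₀ : k[X]).natDegree < ℓ := by
    rw [← hd]
    refine natDegree_modByMonic_lt _ hm ?_
    intro h1
    rw [h1, natDegree_one] at hd
    omega
  rw [← h1, aeval_eq_sum_range' h2]
  refine Finset.sum_congr rfl fun i _ => ?_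
  rw [Algebra.smul_def, mul_comm]
  rfl

section

variable {k : Type} [Field k] [Fintype k] {K : Type} [Field K] [Algebra k K] {Ω : Type} [Field Ω]
  [Algebra k Ω] [Algebra K Ω] [IsScalarTower k K Ω] [IsAlgClosed Ω] {g₀ : k[X]} {ℓ : ℕ}
  [Fact ℓ.Prime]

/-- forms without zeros over extensions of degree prime to `ℓ` -/
theorem aniso_kap {a n : ℕ} {F : MvPolynomial (Fin a) k}
    (hani : ∀ (E : Type) [Field E] [Algebra k E] [FiniteDimensional k E] (b : Fin a → E), b ≠ 0 →
      MvPolynomial.aeval b F = 0 → ℓ ∣ finrank k E) (x : Fin a → kap k Ω ℓ) (hx : x ≠ 0) :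
    MvPolynomial.eval x (MvPolynomial.map (algebraMap k (kap k Ω ℓ)) F) ≠ 0 := by
  classical
  intro h0
  obtain ⟨m, hm, hS⟩ := common k Ω ℓ (Finset.univ.image fun i => (x i : Ω)) (by
    intro z hz
    obtain ⟨i, _, rfl⟩ := Finset.mem_image.1 hz
    exact (x i).2)
  have hxm : ∀ i, (x i : Ω) ∈ fx k Ω m := fun i => hS _ (Finset.mem_image_of_mem _ (Finset.mem_univ i))
  haveI := fx_finite k Ω (ne_zero_of hm)
  haveI : FiniteDimensional k (fx k Ω m) := inferInstance
  have h1 := hani (fx k Ω m) (fun i => ⟨x i, hxm i⟩) (by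
    intro h
    apply hx
    funext i
    have := congrFun h i
    exact Subtype.ext (congrArg (fun z : fx k Ω m => (z : Ω)) this)) (by
    apply (algebraMap (fx k Ω m) Ω).injective
    rw [map_zero, ← MvPolynomial.aeval_algebraMap_apply]
    have h2 := congrArg (algebraMap (kap k Ω ℓ) Ω) h0
    rw [map_zero, MvPolynomial.eval_map] at h2
    rw [← h2]
    change _ = algebraMap (kap k Ω ℓ) Ω (MvPolynomial.aeval x F)
    rw [← MvPolynomial.aeval_algebraMap_apply]
    rfl)
  exact hm (h1.trans (finrank_fx k Ω (ne_zero_of hm)))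

theorem glob {a b c e : ℕ} (hcℓ : ¬ ℓ ∣ c) (heℓ : ¬ ℓ ∣ e) (hab : ℓ < a + b) (ha : 0 < a) (hb : 0 < b)
    {F : MvPolynomial (Fin a) k} {G : MvPolynomial (Fin b) k} (hF : F.IsHomogeneous (ℓ * (c * e)))
    (hG : G.IsHomogeneous (ℓ * e))
    (hani : ∀ (E : Type) [Field E] [Algebra k E] [FiniteDimensional k E] (b : Fin a → E), b ≠ 0 →
      MvPolynomial.aeval b F = 0 → ℓ ∣ finrank k E)
    (hbni : ∀ (E : Type) [Field E] [Algebra k E] [FiniteDimensional k E] (c : Fin b → E), c ≠ 0 →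
      MvPolynomial.aeval c G = 0 → ℓ ∣ finrank k E)
    (hm : g₀.Monic) (hirr : Irreducible g₀) (hd : g₀.natDegree = ℓ) (u : K) (W : ℕ → K)
    (hW : algebraMap K Ω u = nrm (rts g₀ Ω) ℓ fun i => algebraMap K Ω (W i)) :
    ∃ (L : Type) (_ : Field L) (_ : Algebra K L) (x : Fin a → L) (z : Fin b → L),
      FiniteDimensional K L ∧ ¬ ℓ ∣ finrank K L ∧ (x ≠ 0 ∨ z ≠ 0) ∧
      MvPolynomial.eval₂ ((algebraMap K L).comp (algebraMap k K)) x F =
        algebraMap K L u * MvPolynomial.eval₂ ((algebraMap K L).comp (algebraMap k K)) z G := by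
  classical
  have hℓ : ℓ.Prime := Fact.out
  haveI : Nonempty (Fin a) := ⟨⟨0, ha⟩⟩
  haveI : Nonempty (Fin b) := ⟨⟨0, hb⟩⟩
  have hg0 : g₀ ≠ 0 := hirr.ne_zero
  obtain ⟨Φ, hΦ1, hΦ2⟩ := st_kap (Ω := Ω) hm hirr hd (MvPolynomial.map (algebraMap k (kap k Ω ℓ)) F)
    (hF.map _) (aniso_kap (n := 0) hani)
  obtain ⟨Γ, hΓ1, hΓ2⟩ := st_kap (Ω := Ω) hm hirr hd (MvPolynomial.map (algebraMap k (kap k Ω ℓ)) G)
    (hG.map _) (aniso_kap (n := 0) hbni)
  -- a common field of definition
  obtain ⟨m, hlm, hS⟩ := common k Ω ℓ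
    (((Finset.range ℓ).biUnion fun i => (Φ i).support.image fun s =>
      (((Φ i).coeff s : kap k Ω ℓ) : Ω)) ∪ ((Finset.range ℓ).biUnion fun i =>
        (Γ i).support.image fun s => (((Γ i).coeff s : kap k Ω ℓ) : Ω))) (by
    intro z hz
    rcases Finset.mem_union.1 hz with hz | hz
    · obtain ⟨i, -, hz⟩ := Finset.mem_biUnion.1 hz
      obtain ⟨s, _, rfl⟩ := Finset.mem_image.1 hz
      exact ((Φ i).coeff s).2
    · obtain ⟨i, -, hz⟩ := Finset.mem_biUnion.1 hz
      obtain ⟨s, _, rfl⟩ := Finset.mem_image.1 hz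
      exact ((Γ i).coeff s).2)
  set K₁ : IntermediateField K Ω := LL k Ω K m with hK₁
  have hsub : ∀ z : Ω, z ∈ fx k Ω m → z ∈ K₁ := by
    intro z hz
    refine IntermediateField.subset_adjoin K _ ?_
    rw [rootSet_eq k Ω K (ne_zero_of hlm)]
    exact hz
  have hΦ3 : ∀ i ∈ Finset.range ℓ, ∃ Φ' : MvPolynomial (Fin a) K₁,
      MvPolynomial.map (algebraMap K₁ Ω) Φ' = MvPolynomial.map (algebraMap (kap k Ω ℓ) Ω) (Φ i) := by
    intro i hi
    apply lift_poly
    intro s hs
    refine ⟨⟨_, hsub _ (hS _ (Finset.mem_union_left _ (Finset.mem_biUnion.2 ⟨i, hi,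
      Finset.mem_image_of_mem _ hs⟩)))⟩, rfl⟩
  have hΓ3 : ∀ i ∈ Finset.range ℓ, ∃ Γ' : MvPolynomial (Fin b) K₁,
      MvPolynomial.map (algebraMap K₁ Ω) Γ' = MvPolynomial.map (algebraMap (kap k Ω ℓ) Ω) (Γ i) := by
    intro i hi
    apply lift_poly
    intro s hs
    refine ⟨⟨_, hsub _ (hS _ (Finset.mem_union_right _ (Finset.mem_biUnion.2 ⟨i, hi,
      Finset.mem_image_of_mem _ hs⟩)))⟩, rfl⟩
  choose! Φ' hΦ' using hΦ3
  choose! Γ' hΓ' using hΓ3
  have hΦ4 : ∀ i ∈ Finset.range ℓ, (Φ' i).IsHomogeneous (c * e) := fun i hi => by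
    apply MvPolynomial.IsHomogeneous.of_map (algebraMap K₁ Ω).injective
    rw [hΦ' i hi]
    exact (hΦ2 i).map _
  have hΓ4 : ∀ i ∈ Finset.range ℓ, (Γ' i).IsHomogeneous e := fun i hi => by
    apply MvPolynomial.IsHomogeneous.of_map (algebraMap K₁ Ω).injective
    rw [hΓ' i hi]
    exact (hΓ2 i).map _
  -- the equations
  let f : Fin ℓ → MvPolynomial (Fin a ⊕ Fin b) K₁ := fun i =>
    MvPolynomial.rename Sum.inl (Φ' i) - ∑ p ∈ Finset.range ℓ, ∑ q ∈ Finset.range ℓ,
      MvPolynomial.C (algebraMap K K₁ (algebraMap k K (sc g₀ p q i) * W p)) *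
        MvPolynomial.aeval (fun j => (MvPolynomial.X (Sum.inr j) : MvPolynomial (Fin a ⊕ Fin b) K₁) ^ c)
          (Γ' q)
  have hf : ∀ i, (f i).IsHomogeneous (c * e) := by
    intro i
    refine MvPolynomial.IsHomogeneous.sub ?_ ?_
    · exact (hΦ4 i (Finset.mem_range.2 i.2)).rename_isHomogeneous
    · refine MvPolynomial.IsHomogeneous.sum _ _ _ fun p hp => ?_
      refine MvPolynomial.IsHomogeneous.sum _ _ _ fun q hq => ?_
      refine MvPolynomial.IsHomogeneous.C_mul ?_ _
      have h1 := (hΓ4 q hq).aeval (fun j => (MvPolynomial.X (Sum.inr j) :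
        MvPolynomial (Fin a ⊕ Fin b) K₁) ^ c) (n := c) (fun j => by
          have := (MvPolynomial.isHomogeneous_X K₁ (Sum.inr j : Fin a ⊕ Fin b)).pow c
          rwa [one_mul] at this)
      exact h1
  have hce : ¬ ℓ ∣ c * e := fun h => (hℓ.dvd_mul.1 h).elim hcℓ heℓ
  obtain ⟨L, iL, iA, y, hfd, hnd, hy0, hy⟩ := Pool.Agent.H89.PF.pfister hℓ f (fun _ => c * e) hf
    (fun _ => hce) (by simpa using hab)
  haveI : FiniteDimensional K K₁ := LL_finite k Ω K m
  letI : Algebra K L := ((algebraMap K₁ L).comp (algebraMap K K₁)).toAlgebra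
  haveI : IsScalarTower K K₁ L := IsScalarTower.of_algebraMap_eq fun _ => rfl
  let j : L →ₐ[K₁] Ω := IsAlgClosed.lift
  refine ⟨L, iL, inferInstance, fun i => y (Sum.inl i), fun i => y (Sum.inr i) ^ c,
    FiniteDimensional.trans K K₁ L, ?_, ?_, ?_⟩
  · rw [← finrank_mul_finrank K K₁ L]
    intro h
    rcases hℓ.dvd_mul.1 h with h | h
    · exact LL_finrank k Ω K ℓ hlm h
    · exact hnd h
  · by_contra h
    push Not at h
    apply hy0
    funext i
    rcases i with i | i
    · exact congrFun h.1 i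
    · have h2 := congrFun h.2 i
      have hc0 : c ≠ 0 := by rintro rfl; exact hcℓ (dvd_zero _)
      exact (pow_eq_zero_iff hc0).1 h2
  · apply j.toRingHom.injective
    change j _ = j _
    set φ : k →+* L := (algebraMap K L).comp (algebraMap k K) with hφ
    have hjφ : (j : L →+* Ω).comp φ = algebraMap k Ω := by
      ext z
      change j (algebraMap K₁ L (algebraMap K K₁ (algebraMap k K z))) = _
      rw [j.commutes]
      change algebraMap K Ω (algebraMap k K z) = _
      rw [← IsScalarTower.algebraMap_apply]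
    have hju : j (algebraMap K L u) = algebraMap K Ω u := by
      change j (algebraMap K₁ L (algebraMap K K₁ u)) = _
      rw [j.commutes]
      rfl
    set X' : Fin a → Ω := fun i => j (y (Sum.inl i)) with hX'
    set Z' : Fin b → Ω := fun i => j (y (Sum.inr i)) ^ c with hZ'
    have hevF : j (MvPolynomial.eval₂ φ (fun i => y (Sum.inl i)) F) =
        MvPolynomial.aeval X' (MvPolynomial.map (algebraMap k (kap k Ω ℓ)) F) := by
      rw [MvPolynomial.aeval_def, MvPolynomial.eval₂_map]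
      have h1 := MvPolynomial.hom_eval₂ F φ (j : L →+* Ω) (fun i => y (Sum.inl i))
      rw [hjφ] at h1
      exact h1
    have hevG : j (MvPolynomial.eval₂ φ (fun i => y (Sum.inr i) ^ c) G) =
        MvPolynomial.aeval Z' (MvPolynomial.map (algebraMap k (kap k Ω ℓ)) G) := by
      rw [MvPolynomial.aeval_def, MvPolynomial.eval₂_map]
      have h1 := MvPolynomial.hom_eval₂ G φ (j : L →+* Ω) (fun i => y (Sum.inr i) ^ c)
      rw [hjφ] at h1
      refine h1.trans ?_
      congr 1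
      funext i
      simp only [Function.comp, hZ']
      exact map_pow j _ _
    rw [map_mul, hju, hevF, hevG, hΦ1, hΓ1, hW]
    refine nrm_mul _ _ _ _ _ fun ϑ hϑ => ?_
    rw [mem_rts hg0] at hϑ
    -- values of the components
    have hvΦ : ∀ i ∈ Finset.range ℓ, MvPolynomial.aeval X' (Φ i) = MvPolynomial.aeval X' (Φ' i) := by
      intro i hi
      rw [MvPolynomial.aeval_def, MvPolynomial.aeval_def, MvPolynomial.eval₂_eq_eval_map,
        MvPolynomial.eval₂_eq_eval_map, hΦ' i hi]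
    have hvΓ : ∀ i ∈ Finset.range ℓ, MvPolynomial.aeval Z' (Γ i) = MvPolynomial.aeval Z' (Γ' i) := by
      intro i hi
      rw [MvPolynomial.aeval_def, MvPolynomial.aeval_def, MvPolynomial.eval₂_eq_eval_map,
        MvPolynomial.eval₂_eq_eval_map, hΓ' i hi]
    have heq : ∀ i ∈ Finset.range ℓ, MvPolynomial.aeval X' (Φ' i) =
        ∑ p ∈ Finset.range ℓ, ∑ q ∈ Finset.range ℓ, algebraMap k Ω (sc g₀ p q i) *
          algebraMap K Ω (W p) * MvPolynomial.aeval Z' (Γ' q) := by
      intro i hi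
      have h1 := congrArg j (hy ⟨i, Finset.mem_range.1 hi⟩)
      simp only [f, map_zero, map_sub, map_sum, map_mul, MvPolynomial.aeval_C] at h1
      rw [sub_eq_zero] at h1
      have h2 : j (MvPolynomial.aeval y (MvPolynomial.rename Sum.inl (Φ' i))) =
          MvPolynomial.aeval X' (Φ' i) := by
        rw [MvPolynomial.aeval_rename]
        exact MvPolynomial.comp_aeval_apply (f := y ∘ Sum.inl) j (Φ' i)
      have h3 : ∀ q, j (MvPolynomial.aeval y (MvPolynomial.aeval (fun j =>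
          (MvPolynomial.X (Sum.inr j) : MvPolynomial (Fin a ⊕ Fin b) K₁) ^ c) (Γ' q))) =
          MvPolynomial.aeval Z' (Γ' q) := by
        intro q
        rw [MvPolynomial.comp_aeval_apply, MvPolynomial.comp_aeval_apply]
        congr 2
        funext i
        simp only [map_pow, MvPolynomial.aeval_X]
        rfl
      rw [← h2, h1]
      refine Finset.sum_congr rfl fun p _ => Finset.sum_congr rfl fun q _ => ?_
      rw [h3]
      congr 1
      rw [j.commutes, j.commutes]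
      congr 1
      change algebraMap K Ω (algebraMap k K _) = _
      rw [← IsScalarTower.algebraMap_apply]
    calc ∑ i ∈ Finset.range ℓ, ϑ ^ i * MvPolynomial.aeval X' (Φ i)
        = ∑ i ∈ Finset.range ℓ, ∑ p ∈ Finset.range ℓ, ∑ q ∈ Finset.range ℓ,
            (ϑ ^ i * algebraMap k Ω (sc g₀ p q i)) *
              (algebraMap K Ω (W p) * MvPolynomial.aeval Z' (Γ q)) := by
          refine Finset.sum_congr rfl fun i hi => ?_
          rw [hvΦ i hi, heq i hi, Finset.mul_sum]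
          refine Finset.sum_congr rfl fun p _ => ?_
          rw [Finset.mul_sum]
          refine Finset.sum_congr rfl fun q hq => ?_
          rw [hvΓ q hq]
          ring
      _ = ∑ p ∈ Finset.range ℓ, ∑ q ∈ Finset.range ℓ, (ϑ ^ p * ϑ ^ q) *
              (algebraMap K Ω (W p) * MvPolynomial.aeval Z' (Γ q)) := by
          rw [Finset.sum_comm]
          refine Finset.sum_congr rfl fun p _ => ?_
          rw [Finset.sum_comm]
          refine Finset.sum_congr rfl fun q _ => ?_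
          rw [← Finset.sum_mul, sum_sc hm hd hℓ.pos hϑ]
      _ = _ := by
          rw [Finset.sum_mul_sum]
          refine Finset.sum_congr rfl fun p _ => Finset.sum_congr rfl fun q _ => ?_
          ring

end

end Pool.Agent.H89.UG
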