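import Pool.Agent.H89.UG.Ex
import Pool.Graph.R_pool_sql_team_seeded_3997aac3.Q49.TL.Tk
import Pool.Graph.R_pool_sql_team_seeded_3997aac3.Q177.TL.Line

/-! Anisotropic forms over the union of the extensions of a finite field of degree prime to `ℓ` are
norms from the extension of degree `ℓ`. -/

set_option autoImplicit false
set_option linter.all false

open Module Polynomial

namespace Pool.Agent.H89.UG

open Pool.Agent.Q146.TL.Cst Pool.Agent.Q49.TL

variable {k : Type} [Field k] [Fintype k] {Ω : Type} [Field Ω] [Algebra k Ω] [IsAlgClosed Ω]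
  {g₀ : k[X]} {ℓ : ℕ} [Fact ℓ.Prime]

theorem cn_kap (hm : g₀.Monic) (hirr : Irreducible g₀) (hd : g₀.natDegree = ℓ) :
    CN g₀ ℓ (kap k Ω ℓ) Ω := by
  intro c
  obtain ⟨m, hlm, hcm⟩ := (mem_kap k Ω ℓ c.1).1 c.2
  have hle : fx k Ω m ≤ kap k Ω ℓ := fun z hz => ⟨m, hlm, hz⟩
  let j : fx k Ω m →ₐ[k] kap k Ω ℓ := IntermediateField.inclusion hle
  haveI := fx_finite k Ω (ne_zero_of hlm)
  have h1 : Irreducible (g₀.map (algebraMap k (fx k Ω m))) := by
    apply irr_of_map (j : fx k Ω m →+* kap k Ω ℓ)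
    rw [Polynomial.map_map, j.comp_algebraMap]
    exact irr_kap hirr hd
  obtain ⟨y, hy⟩ := cn_finite (K₀ := fx k Ω m) (Ω := Ω) hm hd h1 ⟨c.1, hcm⟩
  refine ⟨fun i => j (y i), ?_⟩
  have h2 : algebraMap (kap k Ω ℓ) Ω c = algebraMap (fx k Ω m) Ω ⟨c.1, hcm⟩ := rfl
  rw [h2, hy]
  rfl

theorem pac_kap : PAC (kap k Ω ℓ) := by
  obtain ⟨p, hp⟩ := CharP.exists k
  haveI := hp
  haveI : Fact p.Prime := ⟨CharP.char_is_prime k p⟩
  haveI : CharP (kap k Ω ℓ) p :=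
    charP_of_injective_algebraMap (algebraMap k (kap k Ω ℓ)).injective p
  haveI : Infinite (kap k Ω ℓ) := infinite_of p ℓ (kap k Ω ℓ) (kap_irr k Ω ℓ)
  refine s_PACF Pool.Agent.Q177.TL.Line.line p (kap k Ω ℓ) fun x => ?_
  obtain ⟨m, hlm, hxm⟩ := (mem_kap k Ω ℓ x.1).1 x.2
  obtain ⟨n, hn1, hn2⟩ := FiniteField.card k p
  refine ⟨n * m, Nat.mul_pos n.pos (Nat.pos_of_ne_zero (ne_zero_of hlm)), ?_⟩
  rw [mem_fx', hn2, ← pow_mul] at hxm
  exact Subtype.ext hxm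

theorem root_of (hirr : Irreducible g₀) (hd : g₀.natDegree = ℓ) {E : Type}
    [Field E] [Algebra (kap k Ω ℓ) E] (z : E) (hz : IsAlgebraic (kap k Ω ℓ) z)
    (hz' : z ∉ (algebraMap (kap k Ω ℓ) E).range) :
    ∃ θ : E, aeval θ (g₀.map (algebraMap k (kap k Ω ℓ))) = 0 := by
  classical
  have hint : IsIntegral (kap k Ω ℓ) z := hz.isIntegral
  set μ := minpoly (kap k Ω ℓ) z with hμ
  have hμi : Irreducible μ := minpoly.irreducible hint
  have hμ1 : μ.natDegree ≠ 1 := fun h => hz' (minpoly.natDegree_eq_one_iff.1 h)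
  have hdvd : ℓ ∣ μ.natDegree := kap_irr k Ω ℓ μ hμi hμ1
  obtain ⟨m, hm, hS⟩ := common k Ω ℓ (μ.support.image fun i => ((μ.coeff i : kap k Ω ℓ) : Ω)) (by
    intro z hz
    obtain ⟨i, _, rfl⟩ := Finset.mem_image.1 hz
    exact (μ.coeff i).2)
  have hle : fx k Ω m ≤ kap k Ω ℓ := fun z hz => ⟨m, hm, hz⟩
  let j : fx k Ω m →ₐ[k] kap k Ω ℓ := IntermediateField.inclusion hle
  obtain ⟨μ0, hμ0⟩ : ∃ g0 : (fx k Ω m)[X], g0.map (j : fx k Ω m →+* kap k Ω ℓ) = μ := by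
    have h1 : μ ∈ Polynomial.lifts (j : fx k Ω m →+* kap k Ω ℓ) := by
      rw [Polynomial.lifts_iff_coeff_lifts]
      intro n
      by_cases hn : n ∈ μ.support
      · exact ⟨⟨(μ.coeff n : Ω), hS _ (Finset.mem_image_of_mem _ hn)⟩, Subtype.ext rfl⟩
      · rw [notMem_support_iff.1 hn]
        exact ⟨0, map_zero _⟩
    rw [Polynomial.mem_lifts] at h1
    exact h1
  have hirr1 : Irreducible μ0 := irr_of_map _ μ0 (by rw [hμ0]; exact hμi)
  have hdeg : μ0.natDegree = μ.natDegree := by rw [← hμ0, natDegree_map]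
  haveI := fx_finite k Ω (ne_zero_of hm)
  haveI : Fact (Irreducible μ0) := ⟨hirr1⟩
  have hirr2 : Irreducible (g₀.map (algebraMap k (fx k Ω m))) := by
    apply irr_of_map (j : fx k Ω m →+* kap k Ω ℓ)
    rw [Polynomial.map_map, j.comp_algebraMap]
    exact irr_kap hirr hd
  haveI : Fact (Irreducible (g₀.map (algebraMap k (fx k Ω m)))) := ⟨hirr2⟩
  haveI : FiniteDimensional (fx k Ω m) (AdjoinRoot μ0) := (AdjoinRoot.powerBasis hirr1.ne_zero).finite
  haveI : Finite (AdjoinRoot μ0) := Module.finite_of_finite (fx k Ω m)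
  have hf1 : finrank (fx k Ω m) (AdjoinRoot μ0) = μ.natDegree := by
    rw [(AdjoinRoot.powerBasis hirr1.ne_zero).finrank, AdjoinRoot.powerBasis_dim, hdeg]
  have hf2 : finrank (fx k Ω m) (AdjoinRoot (g₀.map (algebraMap k (fx k Ω m)))) = ℓ := by
    rw [(AdjoinRoot.powerBasis hirr2.ne_zero).finrank, AdjoinRoot.powerBasis_dim, natDegree_map, hd]
  obtain ⟨ρ⟩ := FiniteField.nonempty_algHom_of_finrank_dvd (F := fx k Ω m)
    (K := AdjoinRoot (g₀.map (algebraMap k (fx k Ω m)))) (L := AdjoinRoot μ0) (by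
      rw [hf1, hf2]; exact hdvd)
  let i₁ : fx k Ω m →+* E := (algebraMap (kap k Ω ℓ) E).comp (j : fx k Ω m →+* kap k Ω ℓ)
  have hroot : μ0.eval₂ i₁ z = 0 := by
    rw [← eval₂_map, hμ0]
    exact minpoly.aeval (kap k Ω ℓ) z
  let ψ : AdjoinRoot μ0 →+* E := AdjoinRoot.lift i₁ z hroot
  refine ⟨ψ (ρ (AdjoinRoot.root _)), ?_⟩
  have h1 : aeval (AdjoinRoot.root (g₀.map (algebraMap k (fx k Ω m))))
      (g₀.map (algebraMap k (fx k Ω m))) = 0 := by
    rw [AdjoinRoot.aeval_eq, AdjoinRoot.mk_self]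
  have h2 : aeval (ρ (AdjoinRoot.root (g₀.map (algebraMap k (fx k Ω m)))))
      (g₀.map (algebraMap k (fx k Ω m))) = 0 := by
    rw [Polynomial.aeval_algHom_apply, h1, map_zero]
  have h3 := congrArg ψ h2
  rw [map_zero, aeval_def, hom_eval₂] at h3
  rw [aeval_def, eval₂_map, ← j.comp_algebraMap]
  have h4 : ψ.comp (algebraMap (fx k Ω m) (AdjoinRoot μ0)) = i₁ := AdjoinRoot.lift_comp_of hroot
  rw [h4, eval₂_map] at h3
  exact h3

/-- new constants contain a root of `g₀` -/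
def NC (g₀ : k[X]) (K₀ : Type) [Field K₀] [Algebra k K₀] : Prop :=
  ∀ (E : Type) [Field E] [Algebra K₀ E] (z : E), IsAlgebraic K₀ z → z ∉ (algebraMap K₀ E).range →
    ∃ θ : E, aeval θ (g₀.map (algebraMap k K₀)) = 0

section gen

variable {K₀ K₁ : Type} [Field K₀] [Algebra k K₀] [Algebra K₀ Ω] [IsScalarTower k K₀ Ω] [Field K₁]
  [Algebra K₀ K₁]

omit [Fintype k] [IsAlgClosed Ω] [Fact ℓ.Prime] in
theorem sc_core (h0 : g₀ ≠ 0) (hd : g₀.natDegree = ℓ) (T : Stp g₀ ℓ K₀ K₁ Ω)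
    {ι : Type} (p : MvPolynomial ι K₀) (E : Type) [Field E] [Algebra K₀ E]
    (q : MvPolynomial ι K₀ →ₐ[K₀] E) (hq : ∀ x, q x = 0 ↔ p ∣ x) (θ : E)
    (hθ : aeval θ (g₀.map (algebraMap k K₀)) = 0) (u v : MvPolynomial ι K₀)
    (huv : q u = θ * q v) :
      MvPolynomial.map (algebraMap K₀ K₁) p ∣
        ∏ᶠ τ : K₁ ≃ₐ[K₀] K₁, (MvPolynomial.map (algebraMap K₀ K₁) u -
          MvPolynomial.C (τ T.pb.gen) * MvPolynomial.map (algebraMap K₀ K₁) v) := by
  classical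
  haveI := T.fd
  haveI := T.gal
  haveI : Fintype (K₁ ≃ₐ[K₀] K₁) := Fintype.ofFinite _
  rw [finprod_eq_prod_of_fintype]
  -- the big field
  let Ē := AlgebraicClosure E
  letI : Algebra k Ē := ((algebraMap K₀ Ē).comp (algebraMap k K₀)).toAlgebra
  haveI : IsScalarTower k K₀ Ē := IsScalarTower.of_algebraMap_eq fun _ => rfl
  haveI : Algebra.IsAlgebraic K₀ K₁ := inferInstance
  let j' : K₁ →ₐ[K₀] Ē := IsAlgClosed.lift
  let T' : Stp g₀ ℓ K₀ K₁ Ē := ⟨T.pb, T.dim, T.root, T.gal, j'⟩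
  let q₀ : MvPolynomial ι K₀ →ₐ[K₀] Ē := (IsScalarTower.toAlgHom K₀ E Ē).comp q
  have hq₀' : ∀ x, q₀ x = algebraMap E Ē (q x) := fun x => rfl
  have hq₀ : ∀ x, q₀ x = 0 ↔ p ∣ x := by
    intro x
    rw [hq₀', map_eq_zero, hq]
  let q₁ : MvPolynomial ι K₁ →+* Ē := MvPolynomial.eval₂Hom (j' : K₁ →+* Ē) fun i =>
    q₀ (MvPolynomial.X i)
  have hq : ∀ x, q₁ (MvPolynomial.map (algebraMap K₀ K₁) x) = q₀ x := by
    intro x
    have : q₁.comp (MvPolynomial.map (algebraMap K₀ K₁)) = (q₀ : MvPolynomial ι K₀ →+* Ē) := by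
      apply MvPolynomial.ringHom_ext
      · intro c
        change q₁ (MvPolynomial.map (algebraMap K₀ K₁) (MvPolynomial.C c)) = q₀ (MvPolynomial.C c)
        rw [MvPolynomial.map_C]
        change MvPolynomial.eval₂Hom _ _ _ = _
        rw [MvPolynomial.eval₂Hom_C]
        exact (j'.commutes c).trans (q₀.commutes c).symm
      · intro i
        change q₁ (MvPolynomial.map (algebraMap K₀ K₁) (MvPolynomial.X i)) = q₀ (MvPolynomial.X i)
        rw [MvPolynomial.map_X]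
        exact MvPolynomial.eval₂Hom_X' _ _ _
    exact congrFun (congrArg DFunLike.coe this) x
  have D := dscM (K₀ := K₀) (K₁ := K₁) (ι := ι)
  obtain ⟨w, hw⟩ := D.desc (∏ τ : K₁ ≃ₐ[K₀] K₁,
    (MvPolynomial.map (algebraMap K₀ K₁) u -
      MvPolynomial.C (τ T.pb.gen) * MvPolynomial.map (algebraMap K₀ K₁) v)) (by
    intro σ
    rw [map_prod]
    refine Fintype.prod_equiv (Equiv.mulLeft σ) _ _ fun τ => ?_
    rw [map_sub, map_mul, D.fix, D.fix]
    congr 2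
    unfold actM
    rw [MvPolynomial.map_C]
    rfl)
  rw [← hw]
  refine map_dvd _ ((hq₀ w).1 ?_)
  rw [← hq, hw, map_prod]
  have h1 : ∀ τ : K₁ ≃ₐ[K₀] K₁, q₁ (MvPolynomial.map (algebraMap K₀ K₁) u -
      MvPolynomial.C (τ T.pb.gen) * MvPolynomial.map (algebraMap K₀ K₁) v) =
      q₀ u - T'.j (τ T'.pb.gen) * q₀ v := by
    intro τ
    rw [map_sub, map_mul, hq, hq]
    congr 2
    change MvPolynomial.eval₂Hom _ _ _ = _
    rw [MvPolynomial.eval₂Hom_C]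
    rfl
  simp only [h1]
  rw [T'.prod hd h0 fun ϑ => q₀ u - ϑ * q₀ v]
  refine Finset.prod_eq_zero (i := algebraMap E Ē θ) ?_ ?_
  · rw [mem_rts h0, ← aeval_map_algebraMap K₀, aeval_algebraMap_apply, hθ, map_zero]
  · rw [hq₀', hq₀', huv, map_mul, sub_self]

omit [Fintype k] [IsAlgClosed Ω] [Fact ℓ.Prime] in
theorem sc_quot (h0 : g₀ ≠ 0) (hd : g₀.natDegree = ℓ) (T : Stp g₀ ℓ K₀ K₁ Ω)
    {ι : Type} (p : MvPolynomial ι K₀) (Q : Type) [CommRing Q] [Algebra K₀ Q]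
    (π : MvPolynomial ι K₀ →ₐ[K₀] Q)
    (hmem : ∀ x, π x = 0 ↔ p ∣ x) (E : Type) [Field E] [Algebra K₀ E]
    [Algebra Q E] [IsScalarTower K₀ Q E] (hinj : Function.Injective (algebraMap Q E)) (θ : E)
    (hθ : aeval θ (g₀.map (algebraMap k K₀)) = 0) (u v : MvPolynomial ι K₀)
    (hv0 : π v ≠ 0) (hab : algebraMap Q E (π u) / algebraMap Q E (π v) = θ) :
      MvPolynomial.map (algebraMap K₀ K₁) p ∣
        ∏ᶠ τ : K₁ ≃ₐ[K₀] K₁, (MvPolynomial.map (algebraMap K₀ K₁) u -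
          MvPolynomial.C (τ T.pb.gen) * MvPolynomial.map (algebraMap K₀ K₁) v) := by
  let q : MvPolynomial ι K₀ →ₐ[K₀] E :=
    (IsScalarTower.toAlgHom K₀ Q E).comp π
  have hq' : ∀ x : MvPolynomial ι K₀, q x = algebraMap Q E (π x) := by
    intro x
    rfl
  refine sc_core h0 hd T p E q (fun x => ?_) θ hθ u v ?_
  · rw [hq', map_eq_zero_iff _ hinj, hmem]
  · have hv1 : algebraMap Q E (π v) ≠ 0 := by
      rw [Ne, map_eq_zero_iff _ hinj]
      exact hv0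
    rw [hq', hq', ← hab, div_mul_cancel₀ _ hv1]

omit [Fintype k] [IsAlgClosed Ω] [Fact ℓ.Prime] in
theorem sc_gen (hpac : PAC K₀) (hnc : NC g₀ K₀) (h0 : g₀ ≠ 0) (hd : g₀.natDegree = ℓ)
    (T : Stp g₀ ℓ K₀ K₁ Ω)
    {ι : Type} [Finite ι] (p : MvPolynomial ι K₀) (hp : Irreducible p)
    (hani : ∀ x : ι → K₀, x ≠ 0 → MvPolynomial.eval x p ≠ 0)
    (hX : ∃ i, ¬ p ∣ MvPolynomial.X i) :
    ∃ u v : MvPolynomial ι K₀, ¬ p ∣ v ∧
      MvPolynomial.map (algebraMap K₀ K₁) p ∣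
        ∏ᶠ τ : K₁ ≃ₐ[K₀] K₁, (MvPolynomial.map (algebraMap K₀ K₁) u -
          MvPolynomial.C (τ T.pb.gen) * MvPolynomial.map (algebraMap K₀ K₁) v) := by
  classical
  obtain ⟨i, hi⟩ := hX
  set P : Ideal (MvPolynomial ι K₀) := Ideal.span {p} with hP
  have hmem : ∀ x, x ∈ P ↔ p ∣ x := fun x => Ideal.mem_span_singleton
  haveI : P.IsPrime := (Ideal.span_singleton_prime hp.ne_zero).2
    (UniqueFactorizationMonoid.irreducible_iff_prime.1 hp)
  have hex : ∃ z : FractionRing (MvPolynomial ι K₀ ⧸ P), IsAlgebraic K₀ z ∧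
      z ∉ (algebraMap K₀ (FractionRing (MvPolynomial ι K₀ ⧸ P))).range := by
    by_contra hcon
    push Not at hcon
    obtain ⟨x, hx, hxi⟩ := hpac ι P (MvPolynomial.X i)
      (fun h => hi ((hmem _).1 h)) hcon
    rw [MvPolynomial.eval_X] at hxi
    refine hani x (fun h0 => hxi (by rw [h0]; rfl)) (hx p ((hmem p).2 dvd_rfl))
  obtain ⟨z, hz, hz'⟩ := hex
  obtain ⟨θ, hθ⟩ := hnc _ z hz hz'
  obtain ⟨a, b, hb, hab⟩ := IsFractionRing.div_surjective (MvPolynomial ι K₀ ⧸ P) θ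
  obtain ⟨u, rfl⟩ := Ideal.Quotient.mk_surjective a
  obtain ⟨v, rfl⟩ := Ideal.Quotient.mk_surjective b
  have hv0 : Ideal.Quotient.mk P v ≠ 0 := nonZeroDivisors.ne_zero hb
  have hv : ¬ p ∣ v := fun h => hv0 (Ideal.Quotient.eq_zero_iff_mem.2 ((hmem v).2 h))
  refine ⟨u, v, hv, ?_⟩
  refine sc_quot h0 hd T p (MvPolynomial ι K₀ ⧸ P) (Ideal.Quotient.mkₐ K₀ P)
    (fun x => ?_) (FractionRing (MvPolynomial ι K₀ ⧸ P))
    (IsFractionRing.injective (MvPolynomial ι K₀ ⧸ P) _) θ hθ u v hv0 hab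
  exact Ideal.Quotient.eq_zero_iff_mem.trans (hmem x)

omit [Fintype k] [IsAlgClosed Ω] in
/-- **Anisotropic forms.** -/
theorem st_gen (hpac : PAC K₀) (hnc : NC g₀ K₀) (hcn : CN g₀ ℓ K₀ Ω) (T : Stp g₀ ℓ K₀ K₁ Ω)
    (h0 : g₀ ≠ 0) (hd : g₀.natDegree = ℓ) {ι : Type}
    [Finite ι] [Nonempty ι] (F : MvPolynomial ι K₀) {n : ℕ} (hF : F.IsHomogeneous (ℓ * n))
    (hani : ∀ x : ι → K₀, x ≠ 0 → MvPolynomial.eval x F ≠ 0) :
    ∃ Φ : ℕ → MvPolynomial ι K₀,
      (∀ x : ι → Ω, MvPolynomial.aeval x F =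
        nrm (rts g₀ Ω) ℓ fun i => MvPolynomial.aeval x (Φ i)) ∧
      ∀ i, (Φ i).IsHomogeneous n := by
  classical
  have hℓ : ℓ.Prime := Fact.out
  have hF0 : F ≠ 0 := by
    rintro rfl
    exact hani 1 one_ne_zero (map_zero _)
  obtain ⟨Φ, h1, h2⟩ := T.main hℓ hd h0 hcn F hF0 (by
    intro p hp hpF
    have hpani : ∀ x : ι → K₀, x ≠ 0 → MvPolynomial.eval x p ≠ 0 := by
      intro x hx h0
      obtain ⟨s, hs⟩ := hpF
      exact hani x hx (by rw [hs, map_mul, h0, zero_mul])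
    by_cases hX : ∃ i, ¬ p ∣ MvPolynomial.X i
    · exact Or.inl (sc_gen hpac hnc h0 hd T p hp hpani hX)
    · right
      push Not at hX
      intro e he he'
      obtain ⟨q, hq⟩ := he
      have hqh : ∃ m, q.IsHomogeneous m := hom_of_mul (p := q) (q := p ^ e) (n := ℓ * n)
        (by rw [mul_comm, ← hq]; exact hF) (by rw [mul_comm, ← hq]; exact hF0)
      obtain ⟨m, hm⟩ := hqh
      have hq0 : q ≠ 0 := by
        rintro rfl
        rw [mul_zero] at hq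
        exact hF0 hq
      have hpq : ¬ p ∣ q := by
        rintro ⟨s, hs⟩
        apply he'
        rw [hq, hs, pow_succ]
        exact ⟨s, by ring⟩
      have hm0 : m = 0 := by
        by_contra hm0
        apply hpq
        rw [q.as_sum]
        refine Finset.dvd_sum fun s hs => ?_
        have h3 : s.degree = m := (hm.degree_eq_sum_deg_support hs).symm
        have h4 : ∃ i, s i ≠ 0 := by
          by_contra h5
          push Not at h5
          apply hm0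
          have : s = 0 := Finsupp.ext h5
          rw [← h3, this]
          simp
        obtain ⟨i, hi⟩ := h4
        refine (hX i).trans ?_
        rw [MvPolynomial.X_dvd_monomial]
        exact Or.inr hi
      obtain ⟨i₀⟩ := (inferInstance : Nonempty ι)
      have hXp : Prime (MvPolynomial.X i₀ : MvPolynomial ι K₀) := MvPolynomial.X_prime
      obtain ⟨s, hs⟩ := (hp.associated_of_dvd hXp.irreducible (hX i₀)).symm
      have hp1 : p.IsHomogeneous 1 := by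
        obtain ⟨r, hr, hrs⟩ := MvPolynomial.isUnit_iff_eq_C_of_isReduced.1 s.isUnit
        rw [← hs, hrs]
        have := (MvPolynomial.isHomogeneous_X K₀ i₀).mul
          (MvPolynomial.isHomogeneous_C ι r)
        exact this
      have h5 : F.IsHomogeneous (1 * e + m) := by
        rw [hq]
        exact (hp1.pow e).mul hm
      have h6 := h5.inj_right hF hF0
      rw [hm0, one_mul, add_zero] at h6
      rw [h6]
      exact dvd_mul_right _ _)
  exact ⟨Φ, h1, h2 n hF⟩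

end gen

/-- **Anisotropic forms.** -/
theorem st_kap (hm : g₀.Monic) (hirr : Irreducible g₀) (hd : g₀.natDegree = ℓ) {ι : Type}
    [Finite ι] [Nonempty ι] (F : MvPolynomial ι (kap k Ω ℓ)) {n : ℕ} (hF : F.IsHomogeneous (ℓ * n))
    (hani : ∀ x : ι → kap k Ω ℓ, x ≠ 0 → MvPolynomial.eval x F ≠ 0) :
    ∃ Φ : ℕ → MvPolynomial ι (kap k Ω ℓ),
      (∀ x : ι → Ω, MvPolynomial.aeval x F =
        nrm (rts g₀ Ω) ℓ fun i => MvPolynomial.aeval x (Φ i)) ∧
      ∀ i, (Φ i).IsHomogeneous n := by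
  obtain ⟨κ₁, iF, iA, ⟨T⟩⟩ := exists_stp (k := k) (g₀ := g₀) (ℓ := ℓ) (K₀ := kap k Ω ℓ) (Ω := Ω) hm hd
    (irr_kap hirr hd)
  refine st_gen pac_kap ?_ (cn_kap hm hirr hd) T hirr.ne_zero hd F hF hani
  intro E _ _ z hz hz'
  exact root_of hirr hd z hz hz'

end Pool.Agent.H89.UG
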