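import Pool.Agent.H89.FP.Pt

/-! The order of `u` if `F(x) = u G(z)` has local solutions and the forms have no zeros. -/

set_option autoImplicit false
set_option linter.all false

open Module Polynomial WithZero
open scoped NNReal

namespace Pool.Agent.H89.UG

open Pool.Agent.H89.FP

variable {k F L : Type} [Field k] [Finite k] [Field F] [Algebra k F]
  [Valued F (WithZero (Multiplicative ℤ))] [Field L] [Algebra F L] [Algebra k L]
  [IsScalarTower k F L] {w : Valuation L ℝ≥0}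

/-- the values of an anisotropic form -/
theorem val_aniso {δ ℓ N d : ℕ} [FiniteDimensional F L] (hpl : IsPlace k F δ) (hw : IsExt F L w)
    (hℓ : ℓ.Prime) (hno : ∀ α : L, α ^ (Nat.card k ^ ℓ) = α → α ^ Nat.card k = α)
    {A : MvPolynomial (Fin N) k} (hA : A.IsHomogeneous d)
    (hani : ∀ (E : Type) [Field E] [Algebra k E] [FiniteDimensional k E] (b : Fin N → E), b ≠ 0 →
      MvPolynomial.aeval b A = 0 → ℓ ∣ finrank k E) (P : Fin N → L) (hP : P ≠ 0) :
    ∃ c : L, c ≠ 0 ∧ w (MvPolynomial.aeval P A) = w c ^ d := by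
  obtain ⟨c, x, hc, hPc, hx, i₀, hi₀⟩ := primitive w P hP
  obtain ⟨E, iE, iA, b, hfd, hnd, hred⟩ := reduce hpl hw hℓ hno x hx
  have hb : b ≠ 0 := by
    intro hb
    have h1 := (hred (MvPolynomial.X i₀)).1 (by rw [MvPolynomial.aeval_X, hb]; rfl)
    rw [MvPolynomial.aeval_X, hi₀, map_one] at h1
    exact lt_irrefl _ h1
  have hPe : P = fun i => c * x i := funext hPc
  have hle : ∀ H : MvPolynomial (Fin N) k, w (MvPolynomial.aeval x H) ≤ 1 := by
    intro H
    rw [MvPolynomial.aeval_def, MvPolynomial.eval₂_eq']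
    refine Valuation.map_sum_le w fun s _ => ?_
    rw [map_mul, map_prod]
    refine mul_le_one' (w_const_le w _) (Finset.prod_le_one' fun i _ => ?_)
    rw [map_pow]
    exact pow_le_one' (hx i) _
  have h1 : w (MvPolynomial.aeval x A) = 1 := by
    refine le_antisymm (hle A) (not_lt.1 fun h1 => ?_)
    exact hnd (hani E b hb ((hred A).2 h1))
  refine ⟨c, hc, ?_⟩
  rw [hPe, aeval_smul_hom hA, map_mul, map_pow, h1, mul_one]

theorem ord_dvd {δ ℓ a b d e : ℕ} [FiniteDimensional F L] (hpl : IsPlace k F δ) (hℓ : ℓ.Prime)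
    (hδ : ¬ ℓ ∣ δ) (hn : ¬ ℓ ∣ finrank F L) (hd0 : ℓ * d ≠ 0) (he0 : ℓ * e ≠ 0)
    {A : MvPolynomial (Fin a) k} {B : MvPolynomial (Fin b) k} (hA : A.IsHomogeneous (ℓ * d))
    (hB : B.IsHomogeneous (ℓ * e))
    (hani : ∀ (E : Type) [Field E] [Algebra k E] [FiniteDimensional k E] (b : Fin a → E), b ≠ 0 →
      MvPolynomial.aeval b A = 0 → ℓ ∣ finrank k E)
    (hbni : ∀ (E : Type) [Field E] [Algebra k E] [FiniteDimensional k E] (c : Fin b → E), c ≠ 0 →
      MvPolynomial.aeval c B = 0 → ℓ ∣ finrank k E)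
    (u : F) (hu : u ≠ 0) (x : Fin a → L) (z : Fin b → L) (hxz : x ≠ 0 ∨ z ≠ 0)
    (h : MvPolynomial.aeval x A = algebraMap F L u * MvPolynomial.aeval z B) :
    (ℓ : ℤ) ∣ ordF F u := by
  haveI := hpl.complete
  obtain ⟨w, hw⟩ := exists_ext F hpl.nontrivial L
  have hno : ∀ α : L, α ^ (Nat.card k ^ ℓ) = α → α ^ Nat.card k = α := by
    intro α h1
    by_contra h2
    exact hn (dvd_ord hpl hℓ hδ h1 h2).1
  have hz0 : ∀ {N m : ℕ} {H : MvPolynomial (Fin N) k}, H.IsHomogeneous m → m ≠ 0 →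
      MvPolynomial.aeval (0 : Fin N → L) H = 0 := by
    intro N m H hH hm
    have h1 := aeval_smul_hom (L := L) hH (0 : L) 0
    rw [zero_pow hm, zero_mul] at h1
    rw [← h1]
    congr 2
    funext i
    simp
  have hx : x ≠ 0 := by
    rintro rfl
    have hz : z ≠ 0 := hxz.resolve_left fun h => h rfl
    obtain ⟨c, hc, h1⟩ := val_aniso hpl hw hℓ hno hB hbni z hz
    rw [hz0 hA hd0] at h
    have h2 : MvPolynomial.aeval z B = 0 := by
      rcases mul_eq_zero.1 h.symm with h3 | h3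
      · exact absurd ((map_eq_zero _).1 h3) hu
      · exact h3
    rw [h2, map_zero] at h1
    exact pow_ne_zero _ ((Valuation.ne_zero_iff w).2 hc) h1.symm
  have hz : z ≠ 0 := by
    rintro rfl
    obtain ⟨c, hc, h1⟩ := val_aniso hpl hw hℓ hno hA hani x hx
    rw [h, hz0 hB he0, mul_zero, map_zero] at h1
    exact pow_ne_zero _ ((Valuation.ne_zero_iff w).2 hc) h1.symm
  obtain ⟨c, hc, h1⟩ := val_aniso hpl hw hℓ hno hA hani x hx
  obtain ⟨c', hc', h2⟩ := val_aniso hpl hw hℓ hno hB hbni z hz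
  have h3 : w (algebraMap F L u) = w (c ^ d / c' ^ e) ^ ℓ := by
    have h4 : w c' ^ (ℓ * e) ≠ 0 := pow_ne_zero _ ((Valuation.ne_zero_iff w).2 hc')
    rw [h, map_mul, h2] at h1
    rw [← mul_right_cancel_iff_of_pos (pos_iff_ne_zero.2 h4), h1, map_div₀, map_pow, map_pow, div_pow,
      ← pow_mul, ← pow_mul, mul_comm d ℓ, mul_comm e ℓ, div_mul_cancel₀ _ h4]
  have h5 : vF F u ^ finrank F L = vF F (Algebra.norm F (c ^ d / c' ^ e)) ^ ℓ := by
    apply hm_mono.injective
    rw [map_pow, map_pow, ← hw.ext, ← hw.norm, h3]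
    rw [← pow_mul, ← pow_mul, mul_comm]
  have h6 := congrArg (fun z => -(log z)) h5
  simp only [log_pow, nsmul_eq_mul] at h6
  have h7 : (finrank F L : ℤ) * ordF F u = ℓ * ordF F (Algebra.norm F (c ^ d / c' ^ e)) := by
    unfold ordF
    linear_combination h6
  have h8 : (ℓ : ℤ) ∣ (finrank F L : ℤ) * ordF F u := Dvd.intro _ h7.symm
  have hp : Prime (ℓ : ℤ) := Nat.prime_iff_prime_int.1 hℓ
  exact (hp.dvd_or_dvd h8).resolve_left fun h9 => hn (by exact_mod_cast h9)

end Pool.Agent.H89.UG
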