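import Pool.Agent.H89.UG.Nf

/-! Polynomial rings over a Galois extension; factors of homogeneous polynomials. -/

set_option autoImplicit false
set_option linter.all false

open MvPolynomial

namespace Pool.Agent.H89.UG

section hom

variable {σ R : Type} [CommRing R]

/-- the grading as a ring homomorphism -/
noncomputable def gr : MvPolynomial σ R →ₐ[R] Polynomial (MvPolynomial σ R) :=
  aeval fun i => Polynomial.C (X i) * Polynomial.X

theorem gr_monomial (s : σ →₀ ℕ) (c : R) : gr (monomial s c) =
    Polynomial.C (monomial s c) * Polynomial.X ^ s.degree := by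
  unfold gr
  rw [aeval_monomial, Finsupp.prod]
  simp only [mul_pow, Finset.prod_mul_distrib]
  rw [Finset.prod_pow_eq_pow_sum, ← mul_assoc]
  congr 1
  rw [monomial_eq, map_mul, Finsupp.prod, map_prod]
  congr 1
  refine Finset.prod_congr rfl fun i _ => ?_
  rw [map_pow]

theorem gr_coeff (f : MvPolynomial σ R) (m : ℕ) : (gr f).coeff m = homogeneousComponent m f := by
  classical
  induction f using MvPolynomial.induction_on' with
  | monomial s c =>
    rw [gr_monomial, Polynomial.coeff_C_mul, Polynomial.coeff_X_pow]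
    ext d
    rw [coeff_homogeneousComponent, coeff_monomial]
    by_cases h : s = d
    · subst h
      by_cases h2 : m = s.degree
      · rw [if_pos h2, if_pos h2.symm, mul_one, coeff_monomial, if_pos rfl]
      · rw [if_neg h2, if_neg (Ne.symm h2), mul_zero, coeff_zero]
    · rw [if_neg h, ite_self]
      split_ifs with h2
      · rw [mul_one, coeff_monomial, if_neg h]
      · rw [mul_zero, coeff_zero]
  | add p q hp hq => rw [map_add, Polynomial.coeff_add, hp, hq, map_add]

theorem hom_of_mul [IsDomain R] {p q : MvPolynomial σ R} {n : ℕ} (h : (p * q).IsHomogeneous n)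
    (h0 : p * q ≠ 0) : ∃ m, p.IsHomogeneous m := by
  classical
  have h1 : gr (p * q) = Polynomial.monomial n (p * q) := by
    ext1 m
    rw [gr_coeff, Polynomial.coeff_monomial]
    by_cases hm : n = m
    · rw [if_pos hm, ← hm, homogeneousComponent_eq_self h]
    · rw [if_neg hm, homogeneousComponent_of_mem h, if_neg (Ne.symm hm)]
  have h2 : gr p * gr q = Polynomial.monomial n (p * q) := by rw [← map_mul, h1]
  have hpq : gr p * gr q ≠ 0 := by
    rw [h2]
    exact fun hh => h0 ((Polynomial.monomial_eq_zero_iff _ _).1 hh)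
  have hP : gr p ≠ 0 := left_ne_zero_of_mul hpq
  have hQ : gr q ≠ 0 := right_ne_zero_of_mul hpq
  have h3 : (gr p).natDegree + (gr q).natDegree = n := by
    rw [← Polynomial.natDegree_mul hP hQ, h2, Polynomial.natDegree_monomial, if_neg h0]
  have h4 : (gr p).natTrailingDegree + (gr q).natTrailingDegree = n := by
    rw [← Polynomial.natTrailingDegree_mul hP hQ, h2, Polynomial.natTrailingDegree_monomial h0]
  have h5 := Polynomial.natTrailingDegree_le_natDegree (gr p)
  have h6 := Polynomial.natTrailingDegree_le_natDegree (gr q)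
  refine ⟨(gr p).natDegree, ?_⟩
  have h7 : ∀ j, j ≠ (gr p).natDegree → homogeneousComponent j p = 0 := by
    intro j hj
    rw [← gr_coeff]
    rcases lt_or_gt_of_ne hj with h8 | h8
    · exact Polynomial.coeff_eq_zero_of_lt_natTrailingDegree (by omega)
    · exact Polynomial.coeff_eq_zero_of_natDegree_lt h8
  have h8 : homogeneousComponent (gr p).natDegree p = p := by
    ext d
    rw [coeff_homogeneousComponent]
    split_ifs with h9
    · rfl
    · have h10 := congrArg (coeff d) (h7 _ h9)
      rw [coeff_homogeneousComponent, if_pos rfl, coeff_zero] at h10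
      exact h10.symm
  have h9 := homogeneousComponent_isHomogeneous (gr p).natDegree p
  rw [h8] at h9
  exact h9

end hom

section ext

variable {K₀ K₁ : Type} [Field K₀] [Field K₁] [Algebra K₀ K₁] [FiniteDimensional K₀ K₁]
  [IsGalois K₀ K₁] {ι : Type}

/-- the action of the Galois group on polynomials -/
noncomputable def actM (ι : Type) (g : K₁ ≃ₐ[K₀] K₁) : MvPolynomial ι K₁ →+* MvPolynomial ι K₁ :=
  MvPolynomial.map (g : K₁ →+* K₁)

theorem actM_coeff (g : K₁ ≃ₐ[K₀] K₁) (b : MvPolynomial ι K₁) (m : ι →₀ ℕ) :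
    coeff m (actM ι g b) = g (coeff m b) := by
  unfold actM
  rw [coeff_map]
  rfl

theorem dscM : Dsc (MvPolynomial.map (σ := ι) (algebraMap K₀ K₁)) (actM ι (K₀ := K₀) (K₁ := K₁)) := by
  classical
  have hdesc : ∀ b : MvPolynomial ι K₁, (∀ g : K₁ ≃ₐ[K₀] K₁, actM ι g b = b) →
      ∃ a, MvPolynomial.map (σ := ι) (algebraMap K₀ K₁) a = b := by
    intro b hb
    have h1 : b ∈ Set.range (MvPolynomial.map (σ := ι) (algebraMap K₀ K₁)) := by
      rw [mem_range_map_iff_coeffs_subset]
      intro c hc
      rw [Finset.mem_coe, mem_coeffs_iff] at hc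
      obtain ⟨m, -, rfl⟩ := hc
      refine (IsGalois.mem_range_algebraMap_iff_fixed (F := K₀) _).2 fun g => ?_
      rw [← actM_coeff, hb]
    exact h1
  refine ⟨map_injective _ (algebraMap K₀ K₁).injective, ?_, ?_, ?_, hdesc, ?_⟩
  · intro b
    ext m
    rw [actM_coeff]
    rfl
  · intro g h b
    ext m
    rw [actM_coeff, actM_coeff, actM_coeff]
    rfl
  · intro g a
    ext m
    rw [actM_coeff, coeff_map, g.commutes]
  · intro b hb h
    obtain ⟨m, hm⟩ := ne_zero_iff.1 hb
    have hc : (coeff m b)⁻¹ ≠ 0 := inv_ne_zero hm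
    obtain ⟨a, ha⟩ := hdesc (C (coeff m b)⁻¹ * b) fun g => by
      obtain ⟨u, hu⟩ := h g
      obtain ⟨r, hr, hur⟩ := isUnit_iff_eq_C_of_isReduced.1 u.isUnit
      have h1 : actM ι g b * C r = b := by rw [← hur]; exact hu
      have h2 : ∀ d, g (coeff d b) * r = coeff d b := by
        intro d
        have h2 := congrArg (coeff d) h1
        rwa [mul_comm, coeff_C_mul, actM_coeff, mul_comm] at h2
      have hr0 : r ≠ 0 := hr.ne_zero
      have hg0 : g (coeff m b) ≠ 0 := (map_ne_zero_iff g g.injective).2 hm
      ext d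
      rw [actM_coeff, coeff_C_mul, map_mul, map_inv₀]
      have h3 : g (coeff d b) = coeff d b * r⁻¹ := by
        rw [← h2 d, mul_assoc, mul_inv_cancel₀ hr0, mul_one, h2 d]
      have h4 : g (coeff m b) = coeff m b * r⁻¹ := by
        rw [← h2 m, mul_assoc, mul_inv_cancel₀ hr0, mul_one, h2 m]
      rw [h3, h4]
      field_simp
    refine ⟨a, ?_⟩
    rw [ha]
    have hu : IsUnit (C (σ := ι) (coeff m b)⁻¹) := (isUnit_iff_ne_zero.2 hc).map C
    obtain ⟨u, hu⟩ := hu
    rw [← hu]
    exact ⟨u, mul_comm _ _⟩

end ext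

end Pool.Agent.H89.UG
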