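import Mathlib

/-! Norms from a Galois extension of prime degree of factorial rings. -/

set_option autoImplicit false
set_option linter.all false

namespace Pool.Agent.H89.UG

/-- `G` acts on `B`, the fixed ring is `A`, and the units satisfy Hilbert 90 -/
structure Dsc {A B G : Type} [CommRing A] [CommRing B] [Group G] (φ : A →+* B)
    (act : G → B →+* B) : Prop where
  inj : Function.Injective φ
  one : ∀ b, act 1 b = b
  mul : ∀ g h b, act (g * h) b = act g (act h b)
  fix : ∀ g a, act g (φ a) = φ a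
  desc : ∀ b, (∀ g, act g b = b) → ∃ a, φ a = b
  h90 : ∀ b, b ≠ 0 → (∀ g, Associated (act g b) b) → ∃ a, Associated b (φ a)

section

variable {A B G : Type} [CommRing A] [CommRing B] [Group G] [Fintype G] [IsDomain A] [IsDomain B]
  {φ : A →+* B} {act : G → B →+* B}

theorem Dsc.act_inj (D : Dsc φ act) (g : G) : Function.Injective (act g) := by
  intro x y h
  have h1 := congrArg (act g⁻¹) h
  rwa [← D.mul, ← D.mul, inv_mul_cancel, D.one, D.one] at h1

theorem Dsc.dvd (D : Dsc φ act) {a p : A} (h : φ a ∣ φ p) : a ∣ p := by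
  obtain ⟨b, hb⟩ := h
  by_cases ha : a = 0
  · rw [ha, map_zero, zero_mul] at hb
    rw [(map_eq_zero_iff φ D.inj).1 hb]
    exact dvd_zero _
  have ha' : φ a ≠ 0 := (map_ne_zero_iff φ D.inj).2 ha
  obtain ⟨c, rfl⟩ := D.desc b fun g => by
    have h1 := congrArg (act g) hb
    rw [map_mul, D.fix, D.fix, hb] at h1
    exact (mul_left_cancel₀ ha' h1).symm
  refine ⟨c, D.inj ?_⟩
  rw [hb, map_mul]

theorem Dsc.unit (D : Dsc φ act) {a : A} (h : IsUnit (φ a)) : IsUnit a := by
  rw [isUnit_iff_dvd_one] at h ⊢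
  rw [← map_one φ] at h
  exact D.dvd h

theorem Dsc.assoc_act (D : Dsc φ act) (g : G) {x y : B} (h : Associated x y) :
    Associated (act g x) (act g y) := h.map (act g)

theorem Dsc.prime_act (D : Dsc φ act) (g : G) {h : B} (hh : Prime h) : Prime (act g h) := by
  let e : B ≃+* B := RingEquiv.ofBijective (act g) ⟨D.act_inj g, fun y => ⟨act g⁻¹ y, by
    rw [← D.mul, mul_inv_cancel, D.one]⟩⟩
  exact (MulEquiv.prime_iff (e : B ≃* B)).2 hh

/-- norm-like elements -/
def NL (φ : A →+* B) (act : G → B →+* B) (F : A) : Prop :=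
  ∃ (c : A) (h : B), IsUnit c ∧ φ F = φ c * ∏ g, act g h

/-- splitting condition -/
def SC (φ : A →+* B) (act : G → B →+* B) (p : A) : Prop :=
  ∃ (θ : G → B) (u v : A), (∀ g h, g ≠ h → IsUnit (θ g - θ h)) ∧
    (∀ g h, act g (θ h) = θ (g * h)) ∧ φ p ∣ ∏ g, (φ u - θ g * φ v) ∧ ¬ p ∣ v

theorem Dsc.nf [UniqueFactorizationMonoid B] (D : Dsc φ act) (hG : (Nat.card G).Prime) {p : A}
    (hp : Irreducible p) (hs : SC φ act p) : NL φ act p := by
  classical
  have hp0 : φ p ≠ 0 := (map_ne_zero_iff φ D.inj).2 hp.ne_zero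
  have hpu : ¬ IsUnit (φ p) := fun h => hp.not_isUnit (D.unit h)
  obtain ⟨h, hh, hdvd⟩ := WfDvdMonoid.exists_irreducible_factor hpu hp0
  have hhp : Prime h := UniqueFactorizationMonoid.irreducible_iff_prime.1 hh
  by_cases hA : ∀ g, Associated (act g h) h
  · exfalso
    obtain ⟨a, ha⟩ := D.h90 h hh.ne_zero hA
    have h1 : a ∣ p := D.dvd (ha.symm.dvd.trans hdvd)
    have h2 : ¬ IsUnit a := fun hu => hh.not_isUnit (ha.symm.isUnit (hu.map φ))
    have h3 : Associated a p := (hp.dvd_iff.1 h1).resolve_left h2 |>.symm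
    have h4 : Prime (φ p) := (ha.trans (h3.map φ)).prime hhp
    obtain ⟨θ, u, v, hθ, hact, hd, hv⟩ := hs
    obtain ⟨g, -, hg⟩ := (h4.dvd_finsetProd_iff _).1 hd
    obtain ⟨g', hg'⟩ : ∃ g', g' ≠ g := by
      haveI : Nontrivial G := by
        rw [← Finite.one_lt_card_iff_nontrivial]
        exact hG.one_lt
      exact exists_ne g
    have h5 : φ p ∣ φ u - θ g' * φ v := by
      have := map_dvd (act (g' * g⁻¹)) hg
      rwa [D.fix, map_sub, map_mul, D.fix, D.fix, hact, inv_mul_cancel_right] at this
    have h6 : φ p ∣ (θ g' - θ g) * φ v := by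
      have := dvd_sub hg h5
      have h7 : φ u - θ g * φ v - (φ u - θ g' * φ v) = (θ g' - θ g) * φ v := by ring
      rwa [h7] at this
    rw [(hθ g' g hg').dvd_mul_left] at h6
    exact hv (D.dvd h6)
  · push Not at hA
    obtain ⟨g₀, hg₀⟩ := hA
    let H : Subgroup G :=
      { carrier := {g | Associated (act g h) h}
        mul_mem' := by
          intro a b ha hb
          change Associated (act (a * b) h) h
          rw [D.mul]
          exact (D.assoc_act a hb).trans ha
        one_mem' := by
          change Associated (act 1 h) h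
          rw [D.one]
        inv_mem' := by
          intro a ha
          change Associated (act a⁻¹ h) h
          have := D.assoc_act a⁻¹ (Associated.symm ha)
          rwa [← D.mul, inv_mul_cancel, D.one] at this }
    have hH : H = ⊥ := by
      have h1 : Nat.card H ∣ Nat.card G := Subgroup.card_subgroup_dvd_card H
      rcases (Nat.dvd_prime hG).1 h1 with h2 | h2
      · exact Subgroup.card_eq_one.1 h2
      · exfalso
        have h3 : H = ⊤ := Subgroup.eq_top_of_card_eq H h2
        apply hg₀
        have : g₀ ∈ H := by rw [h3]; exact Subgroup.mem_top _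
        exact this
    have hdist : ∀ g g', g ≠ g' → ¬ Associated (act g h) (act g' h) := by
      intro g g' hne has
      have h1 := D.assoc_act g'⁻¹ has
      rw [← D.mul, ← D.mul, inv_mul_cancel, D.one] at h1
      have h2 : g'⁻¹ * g ∈ H := h1
      rw [hH, Subgroup.mem_bot] at h2
      exact hne (inv_mul_eq_one.1 h2).symm
    have hprod : ∏ g, act g h ∣ φ p := by
      apply Finset.prod_dvd_of_isRelPrime
      · intro g _ g' _ hne
        change IsRelPrime (act g h) (act g' h)
        have h1 := D.prime_act g hhp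
        have h2 := D.prime_act g' hhp
        rw [h1.irreducible.isRelPrime_iff_not_dvd]
        intro hd
        exact hdist g g' hne (h1.irreducible.associated_of_dvd h2.irreducible hd)
      · intro g _
        have := map_dvd (act g) hdvd
        rwa [D.fix] at this
    obtain ⟨q, hq⟩ := D.desc (∏ g, act g h) fun g => by
      rw [map_prod]
      rw [← Fintype.prod_equiv (Equiv.mulLeft g) (fun x => act g (act x h)) (fun x => act x h)
        (fun x => by rw [← D.mul]; rfl)]
    have h1 : q ∣ p := D.dvd (by rw [hq]; exact hprod)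
    have h2 : ¬ IsUnit q := by
      intro hu
      have h3 : IsUnit (∏ g, act g h) := by rw [← hq]; exact hu.map φ
      have h4 : act 1 h ∣ ∏ g, act g h := Finset.dvd_prod_of_mem _ (Finset.mem_univ _)
      exact (D.prime_act 1 hhp).not_unit (isUnit_of_dvd_unit h4 h3)
    have h3 : Associated q p := ((hp.dvd_iff.1 h1).resolve_left h2).symm
    obtain ⟨c, hc⟩ := h3
    refine ⟨c, h, c.isUnit, ?_⟩
    rw [← hc, map_mul, hq, mul_comm]

theorem NL.mul {x y : A} (hx : NL φ act x) (hy : NL φ act y) : NL φ act (x * y) := by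
  obtain ⟨c, h, hc, h1⟩ := hx
  obtain ⟨c', h', hc', h1'⟩ := hy
  refine ⟨c * c', h * h', hc.mul hc', ?_⟩
  rw [map_mul, h1, h1', map_mul]
  simp only [map_mul, Finset.prod_mul_distrib]
  ring

theorem NL.unit {x : A} (hx : IsUnit x) : NL φ act x := by
  refine ⟨x, 1, hx, ?_⟩
  simp

theorem NL.pow {x : A} (hx : NL φ act x) (n : ℕ) : NL φ act (x ^ n) := by
  induction n with
  | zero => rw [pow_zero]; exact NL.unit isUnit_one
  | succ n ih => rw [pow_succ]; exact ih.mul hx

theorem Dsc.pow_card (D : Dsc φ act) (x : A) : NL φ act (x ^ Fintype.card G) := by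
  refine ⟨1, φ x, isUnit_one, ?_⟩
  simp only [D.fix, Finset.prod_const, Finset.card_univ, map_pow, map_one, one_mul]

theorem Dsc.nl [UniqueFactorizationMonoid A] [UniqueFactorizationMonoid B] (D : Dsc φ act)
    (hG : (Nat.card G).Prime) (F : A) (hF : F ≠ 0)
    (h : ∀ p, Irreducible p → p ∣ F → SC φ act p ∨
      ∀ n, p ^ n ∣ F → ¬ p ^ (n + 1) ∣ F → Fintype.card G ∣ n) : NL φ act F := by
  classical
  revert hF h
  refine UniqueFactorizationMonoid.induction_on_coprime F ?_ ?_ ?_ ?_
  · intro h; exact absurd rfl h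
  · intro x hx _ _; exact NL.unit hx
  · intro p i hp _ h
    rcases Nat.eq_zero_or_pos i with hi | hi
    · rw [hi, pow_zero]; exact NL.unit isUnit_one
    rcases h p hp.irreducible (dvd_pow_self p hi.ne') with h1 | h1
    · exact (D.nf hG hp.irreducible h1).pow i
    · have h2 := h1 i dvd_rfl (by
        intro hd
        rw [pow_dvd_pow_iff hp.ne_zero hp.not_unit] at hd
        omega)
      obtain ⟨j, rfl⟩ := h2
      rw [mul_comm, pow_mul]
      exact D.pow_card _
  · intro x y hxy hx hy h0 h
    have hx0 : x ≠ 0 := left_ne_zero_of_mul h0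
    have hy0 : y ≠ 0 := right_ne_zero_of_mul h0
    refine (hx hx0 ?_).mul (hy hy0 ?_)
    · intro p hp hpx
      refine (h p hp (hpx.mul_right y)).imp id fun h1 n h2 h3 => ?_
      rcases Nat.eq_zero_or_pos n with hn | hn
      · rw [hn]; exact dvd_zero _
      refine h1 n (h2.mul_right y) fun h4 => h3 ?_
      have hpp : Prime p := UniqueFactorizationMonoid.irreducible_iff_prime.1 hp
      exact hpp.pow_dvd_of_dvd_mul_right _ (fun h5 => hp.not_isUnit (hxy hpx h5)) h4
    · intro p hp hpy
      refine (h p hp (hpy.mul_left x)).imp id fun h1 n h2 h3 => ?_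
      rcases Nat.eq_zero_or_pos n with hn | hn
      · rw [hn]; exact dvd_zero _
      refine h1 n (h2.mul_left x) fun h4 => h3 ?_
      have hpp : Prime p := UniqueFactorizationMonoid.irreducible_iff_prime.1 hp
      exact hpp.pow_dvd_of_dvd_mul_left _ (fun h5 => hp.not_isUnit (hxy h5 hpy)) h4

end

end Pool.Agent.H89.UG
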