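import Pool.Agent.H89.UG.Kap

/-! Polynomials in one variable which are norms. -/

set_option autoImplicit false
set_option linter.all false

open Module Polynomial

namespace Pool.Agent.H89.UG

open Pool.Agent.Q146.TL.Cst

variable {k : Type} [Field k] [Finite k] {Ω : Type} [Field Ω] [Algebra k Ω] [IsAlgClosed Ω]
  {g₀ : k[X]} {ℓ : ℕ}

theorem up (hℓ : ℓ.Prime) (hm : g₀.Monic) (hirr : Irreducible g₀) (hd : g₀.natDegree = ℓ) (U : k[X])
    (hU : U ≠ 0) (hloc : ∀ π : k[X], Irreducible π → ¬ ℓ ∣ π.natDegree → ∀ n, π ^ n ∣ U →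
      ¬ π ^ (n + 1) ∣ U → ℓ ∣ n) :
    ∃ W : ℕ → k[X], ∀ t : Ω, aeval t U = nrm (rts g₀ Ω) ℓ fun i => aeval t (W i) := by
  classical
  have hid : g₀.map (algebraMap k k) = g₀ := by
    rw [Algebra.algebraMap_self, Polynomial.map_id]
  have hirr' : Irreducible (g₀.map (algebraMap k k)) := by rw [hid]; exact hirr
  obtain ⟨K₁, iF, iA, ⟨T⟩⟩ := exists_stp (k := k) (g₀ := g₀) (ℓ := ℓ) (K₀ := k) (Ω := Ω) hm hd hirr'
  let e : MvPolynomial PUnit k ≃ₐ[k] k[X] := MvPolynomial.pUnitAlgEquiv k
  have he : ∀ (t : Ω) (p : MvPolynomial PUnit k), aeval t (e p) = MvPolynomial.aeval (fun _ => t) p := by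
    intro t p
    have : (aeval t : k[X] →ₐ[k] Ω).comp (e : MvPolynomial PUnit k →ₐ[k] k[X]) =
        MvPolynomial.aeval (fun _ => t) := by
      apply MvPolynomial.algHom_ext
      intro i
      simp [e]
    exact DFunLike.congr_fun this p
  obtain ⟨Φ, h1, -⟩ := T.main hℓ hd hirr.ne_zero (cn_finite hm hd hirr') (e.symm U)
    (by rw [Ne, EmbeddingLike.map_eq_zero_iff]; exact hU) (by
    intro p hp hpU
    have hπ : Irreducible (e p) := (MulEquiv.irreducible_iff (e : MvPolynomial PUnit k ≃* k[X])).2 hp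
    by_cases hdeg : ℓ ∣ (e p).natDegree
    · left
      haveI : Fact (Irreducible (e p)) := ⟨hπ⟩
      haveI : Fact (Irreducible g₀) := ⟨hirr⟩
      haveI : FiniteDimensional k (AdjoinRoot (e p)) := (AdjoinRoot.powerBasis hπ.ne_zero).finite
      haveI : Finite (AdjoinRoot (e p)) := Module.finite_of_finite k
      obtain ⟨ρ⟩ := FiniteField.nonempty_algHom_of_finrank_dvd (F := k)
        (K := AdjoinRoot g₀) (L := AdjoinRoot (e p)) (by
          rw [(AdjoinRoot.powerBasis hπ.ne_zero).finrank, AdjoinRoot.powerBasis_dim,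
            (AdjoinRoot.powerBasis hirr.ne_zero).finrank, AdjoinRoot.powerBasis_dim, hd]
          exact hdeg)
      have hθ0 : aeval (AdjoinRoot.root g₀) g₀ = 0 := by
        rw [AdjoinRoot.aeval_eq, AdjoinRoot.mk_self]
      obtain ⟨r, hr⟩ := AdjoinRoot.mk_surjective (ρ (AdjoinRoot.root g₀))
      refine ⟨e.symm r, 1, ?_, ?_⟩
      · intro h
        exact hp.not_isUnit (isUnit_of_dvd_one h)
      · refine sc_core hirr.ne_zero hd T p (AdjoinRoot (e p))
          ((AdjoinRoot.mkₐ (e p)).comp (e : MvPolynomial PUnit k →ₐ[k] k[X])) ?_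
          (ρ (AdjoinRoot.root g₀)) ?_ _ _ ?_
        · intro x
          change AdjoinRoot.mk (e p) (e x) = 0 ↔ _
          rw [AdjoinRoot.mk_eq_zero]
          exact map_dvd_iff e
        · rw [hid, Polynomial.aeval_algHom_apply, hθ0, map_zero]
        · change AdjoinRoot.mk (e p) (e (e.symm r)) = _ * AdjoinRoot.mk (e p) (e 1)
          rw [e.apply_symm_apply, hr, map_one, map_one, mul_one]
    · right
      intro n hn hn'
      refine hloc (e p) hπ hdeg n ?_ ?_
      · have := (map_dvd_iff e).2 hn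
        rwa [map_pow, e.apply_symm_apply] at this
      · intro h
        apply hn'
        rw [← map_dvd_iff e, map_pow, e.apply_symm_apply]
        exact h)
  refine ⟨fun i => e (Φ i), fun t => ?_⟩
  simp only [he]
  rw [← h1, ← he, e.apply_symm_apply]

end Pool.Agent.H89.UG
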